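import Pool.Agent.Y323.KP.Stm

set_option autoImplicit false
set_option linter.all false

/-!
# Project KP: the case `k = 1` (helper309)
-/

open Finset

namespace Pool.Agent.Y323.KP

namespace Base

section count

variable {F V : Type} [Field F] [Fintype F] [AddCommGroup V] [Module F V] [Fintype V]

/-- the number of nonzero vectors spanning a given line -/
theorem card_fibre [DecidableEq V] (W : Submodule F V) (hW : Module.finrank F W = 1)
    [DecidablePred fun v : V => v ≠ 0 ∧ Submodule.span F {v} = W] :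
    ((univ.filter fun v : V => v ≠ 0 ∧ Submodule.span F {v} = W).card : ℝ) =
      (Fintype.card F : ℝ) - 1 := by
  classical
  have h1 : (univ.filter fun v : V => v ≠ 0 ∧ Submodule.span F {v} = W) =
      (univ.filter fun v : V => v ∈ W).erase 0 := by
    ext v
    simp only [mem_filter, mem_univ, true_and, mem_erase]
    constructor
    · rintro ⟨h0, h⟩
      exact ⟨h0, h ▸ Submodule.mem_span_singleton_self v⟩
    · rintro ⟨h0, h⟩
      refine ⟨h0, Submodule.eq_of_le_of_finrank_eq ?_ ?_⟩
      · rwa [Submodule.span_singleton_le_iff_mem]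
      · rw [finrank_span_singleton h0, hW]
  have h2 : (univ.filter fun v : V => v ∈ W).card = Fintype.card F := by
    rw [← Fintype.card_subtype]
    have h3 : Fintype.card {x // x ∈ W} = Fintype.card F ^ Module.finrank F W :=
      Module.card_eq_pow_finrank (K := F) (V := W)
    rw [h3, hW, pow_one]
  rw [h1, card_erase_of_mem (by simp), h2, Nat.cast_sub Fintype.card_pos, Nat.cast_one]

/-- double counting -/
theorem double_count [DecidableEq V] (Φ : Submodule F V → ℝ) :
    ((Fintype.card F : ℝ) - 1) * ∑ᶠ W : Gr F V 1, Φ W.1 =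
      ∑ v ∈ univ.filter (fun v : V => v ≠ 0), Φ (Submodule.span F {v}) := by
  classical
  haveI : Finite (Submodule F V) := inferInstance
  letI : Fintype (Submodule F V) := Fintype.ofFinite _
  letI : Fintype (Gr F V 1) := Fintype.ofFinite _
  set T : Finset (Submodule F V) := univ.filter fun W => Module.finrank F W = 1 with hT
  have h1 : ∑ᶠ W : Gr F V 1, Φ W.1 = ∑ W ∈ T, Φ W := by
    rw [finsum_eq_sum_of_fintype]
    exact (Finset.sum_subtype T (fun W => by simp [hT]) Φ).symm
  have hmaps : ∀ v ∈ univ.filter (fun v : V => v ≠ 0), Submodule.span F {v} ∈ T := by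
    intro v hv
    rw [hT, mem_filter]
    exact ⟨mem_univ _, finrank_span_singleton (mem_filter.1 hv).2⟩
  rw [h1, ← Finset.sum_fiberwise_of_maps_to hmaps, Finset.mul_sum]
  refine Finset.sum_congr rfl fun W hW => ?_
  have h2 : ∀ v ∈ (univ.filter (fun v : V => v ≠ 0)).filter
      (fun v => Submodule.span F {v} = W), Φ (Submodule.span F {v}) = Φ W := fun v hv => by
    rw [(mem_filter.1 hv).2]
  rw [Finset.sum_congr rfl h2, Finset.sum_const, nsmul_eq_mul, Finset.filter_filter,
    card_fibre W (mem_filter.1 hW).2]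

/-- the sum over a line -/
theorem sum_line (f : V → ℝ) {v : V} (hv : v ≠ 0) (a : V) :
    ∑ᶠ w : Submodule.span F {v}, f (a + (w : V)) = ∑ t : F, f (a + t • v) := by
  rw [← finsum_eq_sum_of_fintype]
  refine (finsum_eq_of_bijective (LinearEquiv.toSpanNonzeroSingleton F V v hv)
    (LinearEquiv.bijective _) fun t => ?_).symm
  rw [LinearEquiv.toSpanNonzeroSingleton_apply]

/-- the maximal function at a line -/
theorem TT_line (f : V → ℝ) {v : V} (hv : v ≠ 0) :
    ∃ c : V, TT F f (Submodule.span F {v}) = ∑ t : F, f (c + t • v) := by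
  obtain ⟨c, hc⟩ := exists_eq_ciSup_of_finite
    (f := fun a : V => ∑ᶠ w : Submodule.span F {v}, f (a + (w : V)))
  refine ⟨c, ?_⟩
  rw [← sum_line f hv c]
  exact hc.symm

end count

section chart

variable {F V : Type} [Field F] [Fintype F] [AddCommGroup V] [Module F V] [Fintype V] {m : ℕ}

/-- the point with given coordinates -/
def pt (e : V ≃ₗ[F] (Fin (m + 1) → F)) (i : Fin (m + 1)) (t : F) (y : Fin m → F) : V :=
  e.symm (i.insertNth (α := fun _ => F) t y)

theorem pt_add (e : V ≃ₗ[F] (Fin (m + 1) → F)) (i : Fin (m + 1)) (c : V) (t : F)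
    (w : Fin m → F) :
    c + t • pt e i 1 w = pt e i (e c i + t) ((fun j => e c (i.succAbove j)) + t • w) := by
  apply e.injective
  unfold pt
  rw [map_add, map_smul, e.apply_symm_apply, e.apply_symm_apply]
  funext j
  refine Fin.succAboveCases i ?_ (fun j => ?_) j
  · simp
  · simp

theorem pt_smul (e : V ≃ₗ[F] (Fin (m + 1) → F)) (i : Fin (m + 1)) (s t : F)
    (w : Fin m → F) : s • pt e i t w = pt e i (s * t) (s • w) := by
  apply e.injective
  unfold pt
  rw [map_smul, e.apply_symm_apply, e.apply_symm_apply]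
  funext j
  refine Fin.succAboveCases i ?_ (fun j => ?_) j
  · simp
  · simp

theorem coord_pt (e : V ≃ₗ[F] (Fin (m + 1) → F)) (i : Fin (m + 1)) (t : F) (w : Fin m → F) :
    e (pt e i t w) i = t := by
  unfold pt
  rw [e.apply_symm_apply]
  simp

theorem coord_pt' (e : V ≃ₗ[F] (Fin (m + 1) → F)) (i : Fin (m + 1)) (t : F) (w : Fin m → F)
    (j : Fin m) : e (pt e i t w) (i.succAbove j) = w j := by
  unfold pt
  rw [e.apply_symm_apply]
  simp

theorem pt_coord (e : V ≃ₗ[F] (Fin (m + 1) → F)) (i : Fin (m + 1)) (v : V) :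
    pt e i (e v i) (fun j => e v (i.succAbove j)) = v := by
  apply e.injective
  unfold pt
  rw [e.apply_symm_apply]
  funext j
  refine Fin.succAboveCases i ?_ (fun j => ?_) j
  · simp
  · simp

theorem pt_ne (e : V ≃ₗ[F] (Fin (m + 1) → F)) (i : Fin (m + 1)) (w : Fin m → F) :
    pt e i 1 w ≠ 0 := by
  intro h
  have h1 := coord_pt e i 1 w
  rw [h, map_zero, Pi.zero_apply] at h1
  exact zero_ne_one h1

/-- the sum over all points -/
theorem sum_pt (e : V ≃ₗ[F] (Fin (m + 1) → F)) (i : Fin (m + 1)) (g : V → ℝ) :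
    ∑ t : F, ∑ y : Fin m → F, g (pt e i t y) = ∑ x, g x := by
  rw [← Finset.sum_product', Finset.univ_product_univ]
  refine Fintype.sum_bijective (fun p : F × (Fin m → F) => pt e i p.1 p.2) ?_ _ _ fun p => rfl
  constructor
  · rintro ⟨t, y⟩ ⟨t', y'⟩ h
    simp only at h
    have h1 := coord_pt e i t y
    have h2 : ∀ j, y j = y' j := fun j => by
      rw [← coord_pt' e i t y j, h, coord_pt']
    rw [h, coord_pt] at h1
    rw [Prod.mk.injEq]
    exact ⟨h1.symm, funext h2⟩
  · intro v
    exact ⟨(e v i, fun j => e v (i.succAbove j)), pt_coord e i v⟩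

/-- the estimate in one chart -/
theorem chart_bound (hm : 1 ≤ m) {C : ℝ}
    (hC : ∀ (a : (Fin m → F) → (Fin m → F)) (f : F → (Fin m → F) → ℝ), (∀ t y, 0 ≤ f t y) →
      ∑ w : Fin m → F, (∑ t : F, f t (a w + t • w)) ^ (m + 1) ≤
        C * (Fintype.card F : ℝ) ^ m * ∑ t : F, ∑ y : Fin m → F, f t y ^ (m + 1))
    (e : V ≃ₗ[F] (Fin (m + 1) → F)) (i : Fin (m + 1)) (f : V → ℝ) (hf : ∀ x, 0 ≤ f x) :
    ∑ w : Fin m → F, TT F f (Submodule.span F {pt e i 1 w}) ^ (m + 1) ≤
      C * (Fintype.card F : ℝ) ^ m * ∑ x, f x ^ (m + 1) := by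
  choose c hc using fun w : Fin m → F => TT_line (F := F) f (pt_ne e i w)
  have h1 : ∀ w, TT F f (Submodule.span F {pt e i 1 w}) =
      ∑ t : F, f (pt e i t (((fun j => e (c w) (i.succAbove j)) - e (c w) i • w) + t • w)) := by
    intro w
    rw [hc w]
    refine Fintype.sum_bijective (fun t => e (c w) i + t) (AddGroup.addLeft_bijective _) _ _
      fun t => ?_
    rw [pt_add]
    congr 2
    funext j
    simp only [Pi.add_apply, Pi.sub_apply, Pi.smul_apply, smul_eq_mul]
    ring
  have h2 := hC (fun w => (fun j => e (c w) (i.succAbove j)) - e (c w) i • w)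
    (fun t y => f (pt e i t y)) (fun t y => hf _)
  rw [sum_pt e i (fun x => f x ^ (m + 1))] at h2
  refine le_trans (le_of_eq ?_) h2
  exact Finset.sum_congr rfl fun w _ => by rw [h1 w]

/-- the sum over the vectors with nonzero `i`-th coordinate -/
theorem sum_coord [DecidableEq F] (e : V ≃ₗ[F] (Fin (m + 1) → F)) (i : Fin (m + 1))
    (Φ : Submodule F V → ℝ) :
    ∑ v ∈ univ.filter (fun v : V => e v i ≠ 0), Φ (Submodule.span F {v}) =
      ((Fintype.card F : ℝ) - 1) * ∑ w : Fin m → F, Φ (Submodule.span F {pt e i 1 w}) := by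
  classical
  have h1 : ∑ v ∈ univ.filter (fun v : V => e v i ≠ 0), Φ (Submodule.span F {v}) =
      ∑ p ∈ (univ.erase (0 : F)) ×ˢ (univ : Finset (Fin m → F)),
        Φ (Submodule.span F {pt e i 1 p.2}) := by
    refine Finset.sum_nbij' (fun v => (e v i, (e v i)⁻¹ • fun j => e v (i.succAbove j)))
      (fun p => p.1 • pt e i 1 p.2) ?_ ?_ ?_ ?_ ?_
    · intro v hv
      simp only [mem_product, mem_erase, mem_univ, and_true]
      exact (mem_filter.1 hv).2
    · rintro ⟨s, w⟩ hp
      simp only [mem_product, mem_erase, mem_univ, and_true] at hp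
      simp only [mem_filter, mem_univ, true_and, pt_smul, coord_pt, mul_one]
      exact hp
    · intro v hv
      have hv' := (mem_filter.1 hv).2
      simp only [pt_smul, mul_one, smul_smul, mul_inv_cancel₀ hv', one_smul]
      exact pt_coord e i v
    · rintro ⟨s, w⟩ hp
      simp only [mem_product, mem_erase, mem_univ, and_true] at hp
      simp only [pt_smul, mul_one, coord_pt, coord_pt']
      rw [Prod.mk.injEq]
      refine ⟨rfl, ?_⟩
      funext j
      simp [hp]
    · intro v hv
      have hv' := (mem_filter.1 hv).2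
      have h2 : v = (e v i) • pt e i 1 ((e v i)⁻¹ • fun j => e v (i.succAbove j)) := by
        rw [pt_smul, mul_one, smul_smul, mul_inv_cancel₀ hv', one_smul, pt_coord]
      have h3 : Submodule.span F {v} =
          Submodule.span F {pt e i 1 ((e v i)⁻¹ • fun j => e v (i.succAbove j))} := by
        conv_lhs => rw [h2]
        exact Submodule.span_singleton_smul_eq (IsUnit.mk0 _ hv') _
      rw [h3]
  rw [h1, Finset.sum_product]
  simp only
  rw [Finset.sum_const, nsmul_eq_mul, card_erase_of_mem (mem_univ _),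
    Finset.card_univ, Nat.cast_sub Fintype.card_pos, Nat.cast_one]

end chart

end Base

open Base in
theorem base : TaskBase := by
  classical
  intro hK n hn
  obtain ⟨m, rfl⟩ : ∃ m, n = m + 1 := ⟨n - 1, by omega⟩
  have hm : 1 ≤ m := by omega
  obtain ⟨C, hC0, hC⟩ := hK m hm
  refine ⟨(m + 1 : ℝ) * C, by positivity, ?_⟩
  intro F V _ _ _ _ _ hV f hf
  have hfin : Module.Finite F V := Module.Finite.of_finite
  set e : V ≃ₗ[F] (Fin (m + 1) → F) := (Module.finBasisOfFinrankEq F V hV).equivFun with he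
  set q : ℝ := (Fintype.card F : ℝ) with hq
  have hq2 : (2 : ℝ) ≤ q := by
    have : 1 < Fintype.card F := Fintype.one_lt_card
    rw [hq]
    exact_mod_cast this
  have hTT0 : ∀ W : Submodule F V, 0 ≤ TT F f W := fun W =>
    Real.iSup_nonneg fun a => finsum_nonneg fun w => hf _
  -- the sum over the nonzero vectors
  have h1 : ∑ v ∈ univ.filter (fun v : V => v ≠ 0), TT F f (Submodule.span F {v}) ^ (m + 1) ≤
      ∑ i : Fin (m + 1), ∑ v ∈ univ.filter (fun v : V => e v i ≠ 0),
        TT F f (Submodule.span F {v}) ^ (m + 1) := by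
    simp only [Finset.sum_filter]
    rw [Finset.sum_comm]
    refine Finset.sum_le_sum fun v _ => ?_
    have hnn : ∀ i ∈ (univ : Finset (Fin (m + 1))),
        0 ≤ if e v i ≠ 0 then TT F f (Submodule.span F {v}) ^ (m + 1) else 0 := fun i _ => by
      split_ifs
      · exact pow_nonneg (hTT0 _) _
      · exact le_rfl
    by_cases hv : v ≠ 0
    · obtain ⟨i, hi⟩ : ∃ i, e v i ≠ 0 := by
        by_contra hcon
        push Not at hcon
        apply hv
        apply e.injective
        rw [map_zero]
        exact funext hcon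
      have h2 := Finset.single_le_sum hnn (mem_univ i)
      rw [if_pos hi] at h2
      rw [if_pos hv]
      exact h2
    · rw [if_neg hv]
      exact Finset.sum_nonneg hnn
  have h3 : ∀ i : Fin (m + 1), ∑ v ∈ univ.filter (fun v : V => e v i ≠ 0),
      TT F f (Submodule.span F {v}) ^ (m + 1) ≤ (q - 1) * (C * q ^ m * ∑ x, f x ^ (m + 1)) := by
    intro i
    rw [sum_coord e i (fun W => TT F f W ^ (m + 1))]
    exact mul_le_mul_of_nonneg_left (chart_bound hm (fun a g hg => hC F a g hg) e i f hf)
      (by linarith)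
  have h4 := double_count (F := F) (V := V) (fun W => TT F f W ^ (m + 1))
  have h5 : (q - 1) * ∑ᶠ W : Gr F V 1, TT F f W.1 ^ (m + 1) ≤
      (q - 1) * ((m + 1 : ℝ) * C * q ^ m * ∑ x, f x ^ (m + 1)) := by
    rw [h4]
    refine h1.trans ((Finset.sum_le_sum fun i _ => h3 i).trans (le_of_eq ?_))
    rw [Finset.sum_const, Finset.card_univ, Fintype.card_fin, nsmul_eq_mul]
    push_cast
    ring
  have h6 : ∑ᶠ W : Gr F V 1, TT F f W.1 ^ (m + 1) ≤
      (m + 1 : ℝ) * C * q ^ m * ∑ x, f x ^ (m + 1) :=
    le_of_mul_le_mul_left h5 (by linarith)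
  have h7 : q ^ m ≤ (Nat.card (Gr F V 1) : ℝ) := by
    have h8 := double_count (F := F) (V := V) (fun _ => (1 : ℝ))
    letI : Fintype (Gr F V 1) := Fintype.ofFinite _
    rw [finsum_eq_sum_of_fintype, Finset.sum_const, Finset.sum_const, nsmul_eq_mul,
      nsmul_eq_mul, mul_one, mul_one, Finset.card_univ] at h8
    have h9 : (univ.filter (fun v : V => v ≠ 0)) = univ.erase (0 : V) := by
      ext v; simp
    have h10 : Fintype.card V = Fintype.card F ^ (m + 1) := by
      rw [Module.card_eq_pow_finrank (K := F) (V := V), hV]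
    rw [h9, card_erase_of_mem (mem_univ _), Finset.card_univ, Nat.cast_sub Fintype.card_pos,
      h10, Nat.cast_pow, Nat.cast_one] at h8
    rw [Nat.card_eq_fintype_card]
    have h11 : (1 : ℝ) ≤ q ^ m := one_le_pow₀ (by linarith)
    have h12 : (q - 1) * q ^ m ≤ (q - 1) * (Fintype.card (Gr F V 1) : ℝ) := by
      rw [h8, pow_succ]
      linarith
    exact le_of_mul_le_mul_left h12 (by linarith)
  have h8 : ∀ x, f x ^ (((m + 1 : ℕ) : ℝ) / ((1 : ℕ) : ℝ)) = f x ^ (m + 1) := fun x => by
    rw [Nat.cast_one, div_one, Real.rpow_natCast]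
  rw [Finset.sum_congr rfl fun x _ => h8 x, pow_one]
  refine h6.trans ?_
  have hs : 0 ≤ ∑ x, f x ^ (m + 1) := Finset.sum_nonneg fun x _ => pow_nonneg (hf x) _
  refine mul_le_mul_of_nonneg_right ?_ hs
  exact mul_le_mul_of_nonneg_left h7 (by positivity)

end Pool.Agent.Y323.KP
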