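import Mathlib

set_option autoImplicit false

/-!
# The grading of `F[t][x_1, ..., x_m]` by total degree, shifts and restrictions to lines
-/

open MvPolynomial

namespace Pool.Agent.Y323.KP.Kak

variable {F : Type} [Field F] {m : ℕ}

/-- polynomials in `x` -/
abbrev PA (F : Type) [Field F] (m : ℕ) := MvPolynomial (Fin m) F
/-- polynomials in `x` and `t` -/
abbrev PB (F : Type) [Field F] (m : ℕ) := MvPolynomial (Fin m) (Polynomial F)

/-- The grading by total degree: `t ↦ s`, `x_i ↦ x_i s`. -/
noncomputable def Th : PB F m →+* Polynomial (PA F m) :=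
  MvPolynomial.eval₂Hom (Polynomial.mapRingHom (MvPolynomial.C : F →+* PA F m))
    (fun i => Polynomial.C (MvPolynomial.X i) * Polynomial.X)

lemma Th_C (p : Polynomial F) : Th (m := m) (C p) = p.map (MvPolynomial.C : F →+* PA F m) := by
  simp [Th]

lemma Th_X (i : Fin m) : Th (F := F) (X i) = Polynomial.C (MvPolynomial.X i) * Polynomial.X := by
  simp [Th]

lemma Th_monomial (β : Fin m →₀ ℕ) (p : Polynomial F) :
    Th (monomial β p) = (p.map (MvPolynomial.C : F →+* PA F m)) *
      (Polynomial.C (monomial β (1 : F)) * Polynomial.X ^ (Finsupp.degree β)) := by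
  have h1 : Th (monomial β p) = (p.map (MvPolynomial.C : F →+* PA F m)) *
      ∏ i, (Polynomial.C (MvPolynomial.X i : PA F m) * Polynomial.X) ^ (β i) := by
    unfold Th
    rw [MvPolynomial.coe_eval₂Hom, MvPolynomial.eval₂_monomial, Finsupp.prod_fintype]
    · simp
    · intro i; simp
  rw [h1]
  congr 1
  simp_rw [mul_pow]
  rw [Finset.prod_mul_distrib, Finset.prod_pow_eq_pow_sum, Finsupp.degree_eq_sum]
  congr 1
  simp_rw [← Polynomial.C_pow]
  rw [← map_prod]
  congr 1
  rw [MvPolynomial.monomial_eq, Finsupp.prod_fintype]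
  · simp
  · intro i; simp

lemma Th_coeff (S : PB F m) : ∀ (α : Fin m →₀ ℕ) (N : ℕ),
    coeff α ((Th S).coeff N) =
      if Finsupp.degree α ≤ N then (coeff α S).coeff (N - Finsupp.degree α) else 0 := by
  classical
  induction S using MvPolynomial.induction_on' with
  | monomial β p =>
    intro α N
    rw [Th_monomial, ← mul_assoc, Polynomial.coeff_mul_X_pow', Polynomial.coeff_mul_C,
      Polynomial.coeff_map, MvPolynomial.coeff_monomial]
    by_cases h : β = α
    · subst h
      by_cases h2 : Finsupp.degree β ≤ N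
      · simp [h2]
      · simp [h2]
    · by_cases h2 : Finsupp.degree β ≤ N
      · simp [h2, h, MvPolynomial.coeff_C_mul, MvPolynomial.coeff_monomial]
      · simp [h2, h]
  | add p q hp hq =>
    intro α N
    rw [map_add, Polynomial.coeff_add, MvPolynomial.coeff_add, hp, hq, MvPolynomial.coeff_add,
      Polynomial.coeff_add]
    split_ifs <;> simp

lemma ord_iff (S : PB F m) (M : ℕ) :
    (Polynomial.X ^ M ∣ Th S) ↔
      ∀ (α : Fin m →₀ ℕ) (j : ℕ), j + Finsupp.degree α < M → (coeff α S).coeff j = 0 := by
  rw [Polynomial.X_pow_dvd_iff]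
  constructor
  · intro h α j hj
    have h1 := h (j + Finsupp.degree α) hj
    have h2 := Th_coeff S α (j + Finsupp.degree α)
    rw [h1] at h2
    simpa using h2.symm
  · intro h N hN
    ext α
    rw [Th_coeff]
    split_ifs with h1
    · rw [h α _ (by omega)]
      simp
    · simp

/-- restriction to the translates of a line: `x_i ↦ x_i + a_i + t w_i` -/
noncomputable def Sub (a w : Fin m → F) : PB F m →+* PB F m :=
  MvPolynomial.eval₂Hom MvPolynomial.C
    (fun i => X i + C (Polynomial.C (a i) + Polynomial.X * Polynomial.C (w i)))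

/-- shift in `t` -/
noncomputable def Phi (t : F) : PB F m →+* PB F m :=
  MvPolynomial.map (Polynomial.compRingHom (Polynomial.X + Polynomial.C t))

/-- shift in all variables -/
noncomputable def Shift (t : F) (z : Fin m → F) : PB F m →+* PB F m :=
  MvPolynomial.eval₂Hom (MvPolynomial.C.comp (Polynomial.compRingHom
    (Polynomial.X + Polynomial.C t))) (fun i => X i + C (Polynomial.C (z i)))

/-- translation of `x` -/
noncomputable def Tr (w : Fin m → F) : PA F m →+* PA F m :=
  MvPolynomial.eval₂Hom MvPolynomial.C (fun i => X i + C (w i))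

lemma Th_Sub0 (w : Fin m → F) (S : PB F m) :
    Th (Sub 0 w S) = Polynomial.mapRingHom (Tr w) (Th S) := by
  have h : (Th.comp (Sub 0 w) : PB F m →+* _) = (Polynomial.mapRingHom (Tr w)).comp Th := by
    apply MvPolynomial.ringHom_ext
    · intro p
      simp only [RingHom.comp_apply]
      have h1 : Sub (0 : Fin m → F) w (C p) = C p := by simp [Sub]
      rw [h1, Th_C, Polynomial.coe_mapRingHom, Polynomial.map_map]
      congr 1
      ext c
      simp [Tr]
    · intro i
      simp only [RingHom.comp_apply]
      have h1 : Sub (0 : Fin m → F) w (X i) =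
        X i + C (Polynomial.C 0 + Polynomial.X * Polynomial.C (w i)) := by simp [Sub]
      rw [h1, map_add, Th_C, Th_X, Polynomial.coe_mapRingHom]
      simp [Tr]
      ring
  exact congrArg (fun g : PB F m →+* _ => g S) h

lemma Phi_Sub (a w : Fin m → F) (t : F) (S : PB F m) :
    Phi t (Sub a w S) = Sub 0 w (Shift t (fun i => a i + t * w i) S) := by
  have h : ((Phi t).comp (Sub a w) : PB F m →+* _) =
      (Sub 0 w).comp (Shift t (fun i => a i + t * w i)) := by
    apply MvPolynomial.ringHom_ext
    · intro p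
      simp [Phi, Sub, Shift]
    · intro i
      simp [Phi, Sub, Shift]
      ring
  exact congrArg (fun g : PB F m →+* _ => g S) h

/-- the divisibility lemma -/
lemma dvd_coeff (a w : Fin m → F) (t : F) (P : PB F m) (M : ℕ)
    (h : ∀ (α : Fin m →₀ ℕ) (j : ℕ), j + Finsupp.degree α < M →
      (coeff α (Shift t (fun i => a i + t * w i) P)).coeff j = 0) (α : Fin m →₀ ℕ) :
    (Polynomial.X - Polynomial.C t) ^ (M - Finsupp.degree α) ∣ coeff α (Sub a w P) := by
  have h1 : (Polynomial.X ^ M ∣ Th (Phi t (Sub a w P))) := by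
    rw [Phi_Sub, Th_Sub0]
    obtain ⟨r, hr⟩ := (ord_iff _ M).2 h
    rw [hr, map_mul, map_pow]
    refine ⟨Polynomial.mapRingHom (Tr w) r, ?_⟩
    simp
  rw [ord_iff] at h1
  have h2 : Polynomial.X ^ (M - Finsupp.degree α) ∣
      (coeff α (Sub a w P)).comp (Polynomial.X + Polynomial.C t) := by
    rw [Polynomial.X_pow_dvd_iff]
    intro j hj
    have h3 := h1 α j (by omega)
    unfold Phi at h3
    rw [MvPolynomial.coeff_map] at h3
    simpa using h3
  rw [Polynomial.dvd_comp_X_add_C_iff] at h2
  simpa using h2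

end Pool.Agent.Y323.KP.Kak
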