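import Mathlib
import Pool.Agent.Y323.KP.Theta

set_option autoImplicit false

/-!
# Homogenisation, and the leading part on a line
-/

open MvPolynomial

namespace Pool.Agent.Y323.KP.Kak

variable {F : Type} [Field F] {m : ℕ}

/-- `p` has degree at most `d` and coefficient `g` at `d` -/
def LD (d : ℕ) (p : Polynomial (PA F m)) (g : PA F m) : Prop := p.natDegree ≤ d ∧ p.coeff d = g

lemma LD.mul {d e : ℕ} {p q : Polynomial (PA F m)} {g h : PA F m} (h1 : LD d p g)
    (h2 : LD e q h) : LD (d + e) (p * q) (g * h) := by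
  obtain ⟨h1, rfl⟩ := h1
  obtain ⟨h2, rfl⟩ := h2
  exact ⟨Polynomial.natDegree_mul_le_of_le h1 h2,
    Polynomial.coeff_mul_add_eq_of_natDegree_le h1 h2⟩

lemma LD.one : LD 0 (1 : Polynomial (PA F m)) 1 := by
  simp [LD]

lemma LD.pow {d : ℕ} {p : Polynomial (PA F m)} {g : PA F m} (h1 : LD d p g) (n : ℕ) :
    LD (n * d) (p ^ n) (g ^ n) := by
  induction n with
  | zero => simpa using LD.one
  | succ n ih =>
    rw [pow_succ, pow_succ, add_mul, one_mul]
    exact ih.mul h1

lemma LD.prod {ι : Type} (s : Finset ι) (d : ι → ℕ) (p : ι → Polynomial (PA F m))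
    (g : ι → PA F m) (h : ∀ i ∈ s, LD (d i) (p i) (g i)) :
    LD (∑ i ∈ s, d i) (∏ i ∈ s, p i) (∏ i ∈ s, g i) := by
  classical
  induction s using Finset.induction_on with
  | empty => simpa using LD.one
  | insert i s hi ih =>
    rw [Finset.sum_insert hi, Finset.prod_insert hi, Finset.prod_insert hi]
    exact (h i (Finset.mem_insert_self _ _)).mul
      (ih (fun j hj => h j (Finset.mem_insert_of_mem hj)))

lemma LD.sum {ι : Type} (s : Finset ι) (d : ℕ) (p : ι → Polynomial (PA F m))
    (g : ι → PA F m) (h : ∀ i ∈ s, LD d (p i) (g i)) :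
    LD d (∑ i ∈ s, p i) (∑ i ∈ s, g i) := by
  refine ⟨Polynomial.natDegree_sum_le_of_forall_le _ _ (fun i hi => (h i hi).1), ?_⟩
  rw [Polynomial.finsetSum_coeff]
  exact Finset.sum_congr rfl (fun i hi => (h i hi).2)

/-- homogenisation of degree `d` -/
noncomputable def hm (d : ℕ) (g : PA F m) : PB F m :=
  ∑ β ∈ g.support, monomial β (Polynomial.C (coeff β g) * Polynomial.X ^ (d - Finsupp.degree β))

lemma Sub_monomial (a w : Fin m → F) (β : Fin m →₀ ℕ) (p : Polynomial F) :
    Th (Sub a w (monomial β p)) = (p.map (MvPolynomial.C : F →+* PA F m)) *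
      ∏ i, (Polynomial.C (X i + C (w i)) * Polynomial.X + Polynomial.C (C (a i))) ^ (β i) := by
  have h1 : Sub a w (monomial β p) =
      C p * ∏ i, (X i + C (Polynomial.C (a i) + Polynomial.X * Polynomial.C (w i))) ^ (β i) := by
    unfold Sub
    rw [MvPolynomial.coe_eval₂Hom, MvPolynomial.eval₂_monomial, Finsupp.prod_fintype]
    intro i; simp
  rw [h1, map_mul, Th_C, map_prod]
  congr 1
  refine Finset.prod_congr rfl (fun i _ => ?_)
  rw [map_pow, map_add, Th_X, Th_C]
  congr 1
  simp
  ring

lemma Th_Sub_hm (a w : Fin m → F) (d : ℕ) (g : PA F m)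
    (hg : ∀ β ∈ g.support, Finsupp.degree β ≤ d) :
    LD d (Th (Sub a w (hm d g))) (Tr w g) := by
  have h0 : Tr w g = ∑ β ∈ g.support, C (coeff β g) * ∏ i, (X i + C (w i)) ^ (β i) := by
    unfold Tr
    rw [MvPolynomial.coe_eval₂Hom, MvPolynomial.eval₂_eq']
  rw [h0]
  unfold hm
  rw [map_sum, map_sum]
  refine LD.sum _ _ _ _ (fun β hβ => ?_)
  rw [Sub_monomial]
  have h1 : LD (d - Finsupp.degree β) ((Polynomial.C (coeff β g) *
      Polynomial.X ^ (d - Finsupp.degree β)).map (MvPolynomial.C : F →+* PA F m))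
      (C (coeff β g)) := by
    rw [Polynomial.map_mul, Polynomial.map_C, Polynomial.map_pow, Polynomial.map_X]
    refine ⟨Polynomial.natDegree_C_mul_X_pow_le _ _, ?_⟩
    rw [Polynomial.coeff_C_mul_X_pow]
    simp
  have h2 : LD (Finsupp.degree β) (∏ i, (Polynomial.C (X i + C (w i)) * Polynomial.X +
      Polynomial.C (C (a i))) ^ (β i)) (∏ i, (X i + C (w i) : PA F m) ^ (β i)) := by
    have h3 := LD.prod (F := F) (m := m) Finset.univ (fun i => β i * 1)
      (fun i => (Polynomial.C (X i + C (w i)) * Polynomial.X + Polynomial.C (C (a i))) ^ (β i))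
      (fun i => (X i + C (w i) : PA F m) ^ (β i)) (fun i _ => LD.pow ⟨by
        exact Polynomial.natDegree_linear_le, by simp⟩ _)
    simpa [Finsupp.degree_eq_sum] using h3
  have h4 := h1.mul h2
  rwa [Nat.sub_add_cancel (hg β hβ)] at h4

lemma hm_smul_C (c : F) (t : F) (z : Fin m → F) (S : PB F m) (α : Fin m →₀ ℕ) (j : ℕ) :
    (coeff α (Shift t z (C (Polynomial.C c) * S))).coeff j =
      c * (coeff α (Shift t z S)).coeff j := by
  rw [map_mul]
  have h1 : Shift t z (C (Polynomial.C c) : PB F m) = C (Polynomial.C c) := by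
    simp [Shift]
  rw [h1, MvPolynomial.coeff_C_mul, Polynomial.coeff_C_mul]

lemma Th_smul_C (c : F) (a w : Fin m → F) (S : PB F m) :
    Th (Sub a w (C (Polynomial.C c) * S)) = Polynomial.C (C c) * Th (Sub a w S) := by
  rw [map_mul, map_mul]
  have h1 : Sub a w (C (Polynomial.C c) : PB F m) = C (Polynomial.C c) := by
    simp [Sub]
  rw [h1, Th_C]
  simp

/-! ### the indicator polynomials -/

variable [Fintype F]

/-- the indicator polynomial of the point `w` -/
noncomputable def Ind (w : Fin m → F) : PA F m :=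
  ∏ i, (1 - (X i - C (w i)) ^ (Fintype.card F - 1))

/-- the building blocks -/
noncomputable def Gp (w : Fin m → F) (N : ℕ) (α : Fin m → ℕ) : PA F m :=
  (Ind w) ^ N * ∏ i, (X i - C (w i)) ^ (α i)

omit [Fintype F] in
lemma totalDegree_X_sub_C_le (i : Fin m) (c : F) : (X i - C c : PA F m).totalDegree ≤ 1 := by
  refine (MvPolynomial.totalDegree_sub _ _).trans ?_
  simp

lemma Gp_degree (w : Fin m → F) (N : ℕ) (α : Fin m → ℕ) (β : Fin m →₀ ℕ)
    (hβ : β ∈ (Gp w N α).support) :
    Finsupp.degree β ≤ N * (m * (Fintype.card F - 1)) + ∑ i, α i := by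
  have h1 : Finsupp.degree β ≤ (Gp w N α).totalDegree := by
    exact MvPolynomial.le_totalDegree hβ
  refine h1.trans ?_
  unfold Gp
  refine (MvPolynomial.totalDegree_mul _ _).trans (add_le_add ?_ ?_)
  · refine (MvPolynomial.totalDegree_pow _ _).trans (Nat.mul_le_mul_left _ ?_)
    unfold Ind
    refine (MvPolynomial.totalDegree_finsetProd _ _).trans ?_
    refine (Finset.sum_le_card_nsmul _ _ (Fintype.card F - 1) (fun i _ => ?_)).trans ?_
    · refine (MvPolynomial.totalDegree_sub _ _).trans ?_
      refine max_le (by simp) ?_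
      refine (MvPolynomial.totalDegree_pow _ _).trans ?_
      have := totalDegree_X_sub_C_le (F := F) i (w i)
      calc (Fintype.card F - 1) * (X i - C (w i) : PA F m).totalDegree
          ≤ (Fintype.card F - 1) * 1 := Nat.mul_le_mul_left _ this
        _ = _ := mul_one _
    · simp
  · refine (MvPolynomial.totalDegree_finsetProd _ _).trans ?_
    refine Finset.sum_le_sum (fun i _ => ?_)
    refine (MvPolynomial.totalDegree_pow _ _).trans ?_
    have := totalDegree_X_sub_C_le (F := F) i (w i)
    calc α i * (X i - C (w i) : PA F m).totalDegree ≤ α i * 1 := Nat.mul_le_mul_left _ this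
      _ = _ := mul_one _

open Classical in
lemma Tr_Ind (w w' : Fin m → F) : constantCoeff (Tr w (Ind w')) = if w = w' then 1 else 0 := by
  have h0 : constantCoeff (Tr w (Ind w')) = ∏ i, (1 - (w i - w' i) ^ (Fintype.card F - 1)) := by
    unfold Ind Tr
    rw [map_prod, map_prod]
    refine Finset.prod_congr rfl (fun i _ => ?_)
    simp
  rw [h0]
  split_ifs with h
  · subst h
    have hq : Fintype.card F - 1 ≠ 0 := by
      have := Fintype.one_lt_card (α := F)
      omega
    simp [hq]
  · obtain ⟨i, hi⟩ : ∃ i, w i ≠ w' i := by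
      by_contra hcon
      push Not at hcon
      exact h (funext hcon)
    refine Finset.prod_eq_zero (Finset.mem_univ i) ?_
    rw [FiniteField.pow_card_sub_one_eq_one _ (sub_ne_zero.2 hi)]
    simp

/-- The expansion of a block of another point vanishes to high order. -/
lemma coeff_Tr_Gp_ne (w w' : Fin m → F) (h : w' ≠ w) (N : ℕ) (α' : Fin m → ℕ)
    (α : Fin m →₀ ℕ) (hα : Finsupp.degree α < N) : coeff α (Tr w (Gp w' N α')) = 0 := by
  have h1 : Tr w (Ind w') ∈ MvPolynomial.idealOfVars (Fin m) F ^ 1 := by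
    rw [MvPolynomial.mem_pow_idealOfVars_iff']
    intro x hx
    have hx0 : x = 0 := by
      have : Finsupp.degree x = 0 := by omega
      exact (Finsupp.degree_eq_zero_iff x).1 this
    subst hx0
    have := Tr_Ind w w'
    rw [if_neg (fun h' => h h'.symm)] at this
    simpa [MvPolynomial.constantCoeff_eq] using this
  have h2 : Tr w (Gp w' N α') ∈ MvPolynomial.idealOfVars (Fin m) F ^ N := by
    unfold Gp
    rw [map_mul, map_pow]
    rw [pow_one] at h1
    exact Ideal.mul_mem_right _ _ (Ideal.pow_mem_pow h1 N)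
  exact (MvPolynomial.mem_pow_idealOfVars_iff' _ _).1 h2 α hα

/-- The expansion of a block of the point itself. -/
lemma coeff_Tr_Gp_self (w : Fin m → F) (N : ℕ) (α' : Fin m → ℕ)
    (α : Fin m →₀ ℕ) (hα : Finsupp.degree α ≤ ∑ i, α' i) :
    coeff α (Tr w (Gp w N α')) = if (α : Fin m → ℕ) = α' then 1 else 0 := by
  classical
  set β : Fin m →₀ ℕ := Finsupp.equivFunOnFinite.symm α' with hβ
  have hβ1 : (β : Fin m → ℕ) = α' := by simp [hβ]
  have hβ2 : Finsupp.degree β = ∑ i, α' i := by
    rw [Finsupp.degree_eq_sum]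
    simp [hβ]
  have h1 : Tr w (Gp w N α') = (Tr w (Ind w)) ^ N * monomial β 1 := by
    unfold Gp
    rw [map_mul, map_pow, map_prod]
    congr 1
    rw [MvPolynomial.monomial_eq, Finsupp.prod_fintype _ _ (by intro i; simp)]
    simp only [map_one, one_mul]
    refine Finset.prod_congr rfl (fun i _ => ?_)
    simp [Tr, hβ]
  rw [h1, MvPolynomial.coeff_mul_monomial']
  by_cases h : (α : Fin m → ℕ) = α'
  · have hαβ : α = β := by
      ext i
      rw [hβ1, h]
    rw [if_pos h, if_pos (le_of_eq hαβ.symm), hαβ]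
    simp only [tsub_self, mul_one]
    have h2 := Tr_Ind w w
    rw [if_pos rfl] at h2
    have h3 : constantCoeff ((Tr w (Ind w)) ^ N) = 1 := by
      rw [map_pow, h2, one_pow]
    simpa [MvPolynomial.constantCoeff_eq] using h3
  · rw [if_neg h, if_neg]
    intro hle
    apply h
    have h3 : Finsupp.degree (α - β) = 0 := by
      have h4 : Finsupp.degree (α - β) + Finsupp.degree β = Finsupp.degree α := by
        rw [← map_add, tsub_add_cancel_of_le hle]
      omega
    have h5 : α - β = 0 := (Finsupp.degree_eq_zero_iff _).1 h3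
    have h6 : α = β := le_antisymm (by
      intro i
      have := DFunLike.congr_fun h5 i
      simp only [Finsupp.coe_tsub, Pi.sub_apply, Finsupp.coe_zero, Pi.zero_apply] at this
      omega) hle
    rw [h6, hβ1]

end Pool.Agent.Y323.KP.Kak
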