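import Mathlib
import Pool.Agent.Y323.KP.Hom

set_option autoImplicit false

/-!
# The multiplicity argument
-/

open MvPolynomial

namespace Pool.Agent.Y323.KP.Kak

section Setup

variable {F : Type} [Field F] [Fintype F] {m : ℕ}

/-- the index type of the unknown coefficients -/
abbrev JJ (E : (Fin m → F) → ℕ) (B : (Fin m → F) → ℕ) : Type :=
  Σ w : (Fin m → F), Fin (E w) × (Fin m → Fin (B w))

/-- the index type of the conditions -/
abbrev KK (M : F → (Fin m → F) → ℕ) : Type :=
  Σ z : F × (Fin m → F), Fin (M z.1 z.2) × (Fin m → Fin (M z.1 z.2))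

/-- the degree of a block -/
def Dg {E B : (Fin m → F) → ℕ} (j : JJ E B) : ℕ := E j.1 + 1 + (j.2.1 : ℕ)

/-- the exponent of a block -/
def Ex {E B : (Fin m → F) → ℕ} (j : JJ E B) : Fin m → ℕ := fun i => (j.2.2 i : ℕ)

/-- the block -/
noncomputable def Bl {E B : (Fin m → F) → ℕ} (j : JJ E B) : PA F m :=
  Gp j.1 (m * (Dg j / (m ^ 2 * Fintype.card F))) (Ex j)

/-- the polynomial with coefficients `c` -/
noncomputable def PP {E B : (Fin m → F) → ℕ} (c : JJ E B → F) : PB F m :=
  ∑ j, C (Polynomial.C (c j)) * hm (Dg j) (Bl j)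

lemma card_JJ (E B : (Fin m → F) → ℕ) : Fintype.card (JJ E B) = ∑ w, E w * (B w) ^ m := by
  simp [JJ, Fintype.card_sigma]

lemma card_KK (M : F → (Fin m → F) → ℕ) :
    Fintype.card (KK M) = ∑ t, ∑ y, (M t y) ^ (m + 1) := by
  simp only [KK, Fintype.card_sigma, Fintype.card_prod, Fintype.card_fin, Fintype.card_fun]
  rw [Fintype.sum_prod_type]
  refine Finset.sum_congr rfl (fun t _ => Finset.sum_congr rfl (fun y _ => ?_))
  rw [pow_succ, mul_comm]

/-- the exponent as a finitely supported function -/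
noncomputable def fs (α : Fin m → ℕ) : Fin m →₀ ℕ := Finsupp.equivFunOnFinite.symm α

lemma fs_coe (α : Fin m → ℕ) : (fs α : Fin m → ℕ) = α := by simp [fs]

lemma fs_degree (α : Fin m → ℕ) : Finsupp.degree (fs α) = ∑ i, α i := by
  rw [Finsupp.degree_eq_sum]
  simp [fs]

lemma exists_c (M : F → (Fin m → F) → ℕ) (E B : (Fin m → F) → ℕ)
    (h : Fintype.card (KK M) < Fintype.card (JJ E B)) :
    ∃ c : JJ E B → F, c ≠ 0 ∧ ∀ (t : F) (z : Fin m → F) (α : Fin m →₀ ℕ) (j : ℕ),
      j + Finsupp.degree α < M t z → (coeff α (Shift t z (PP c))).coeff j = 0 := by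
  classical
  set A : Matrix (KK M) (JJ E B) F := fun k j =>
    (coeff (fs fun i => ((k.2.2 i : ℕ))) (Shift k.1.1 k.1.2 (hm (Dg j) (Bl j)))).coeff
      (k.2.1 : ℕ) with hA
  have h1 : LinearMap.ker A.mulVecLin ≠ ⊥ := by
    apply LinearMap.ker_ne_bot_of_finrank_lt
    simpa using h
  obtain ⟨c, hc, hc0⟩ := (Submodule.ne_bot_iff _).1 h1
  refine ⟨c, hc0, ?_⟩
  intro t z α j hj
  have hj0 : j < M t z := by omega
  have hα : ∀ i, α i < M t z := by
    intro i
    have : α i ≤ Finsupp.degree α := by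
      rw [Finsupp.degree_eq_sum]
      exact Finset.single_le_sum (f := fun i => α i) (fun _ _ => Nat.zero_le _)
        (Finset.mem_univ i)
    omega
  have h2 : A.mulVec c ⟨(t, z), ⟨j, hj0⟩, fun i => ⟨α i, hα i⟩⟩ = 0 := by
    have h3 : A.mulVec c = 0 := by simpa using hc
    rw [h3]
    rfl
  have h4 : (fs fun i => α i) = α := by
    ext i
    rw [fs_coe]
  rw [Matrix.mulVec, dotProduct] at h2
  simp only [hA] at h2
  rw [h4] at h2
  unfold PP
  rw [map_sum, MvPolynomial.coeff_sum, Polynomial.finsetSum_coeff, ← h2]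
  refine Finset.sum_congr rfl (fun i _ => ?_)
  rw [hm_smul_C, mul_comm]

omit [Field F] [Fintype F] in
lemma JJ_ext {E B : (Fin m → F) → ℕ} (j k : JJ E B) (h1 : j.1 = k.1) (h2 : Dg j = Dg k)
    (h3 : Ex j = Ex k) : j = k := by
  obtain ⟨jw, ju, ja⟩ := j
  obtain ⟨kw, ku, ka⟩ := k
  simp only at h1
  subst h1
  simp only [Dg] at h2
  have h7 : ju = ku := by
    apply Fin.ext
    omega
  have h8 : ja = ka := by
    funext i
    apply Fin.ext
    have := congrFun h3 i
    simpa [Ex] using this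
  rw [h7, h8]

lemma block_degree (hm : 1 ≤ m) {E B : (Fin m → F) → ℕ}
    (hB : ∀ w, B w = E w / (m ^ 2 * Fintype.card F))
    (j : JJ E B) :
    (∑ i, Ex j i) < m * (Dg j / (m ^ 2 * Fintype.card F)) ∧
    m * (Dg j / (m ^ 2 * Fintype.card F)) * (m * (Fintype.card F - 1)) + ∑ i, Ex j i ≤ Dg j := by
  have hq1 : 1 < Fintype.card F := Fintype.one_lt_card
  have h1 : E j.1 / (m ^ 2 * Fintype.card F) ≤ Dg j / (m ^ 2 * Fintype.card F) := by
    apply Nat.div_le_div_right
    unfold Dg
    omega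
  have h2 : ∀ i, Ex j i < E j.1 / (m ^ 2 * Fintype.card F) := by
    intro i
    rw [← hB]
    exact (j.2.2 i).2
  have h3 : (∑ i, Ex j i) < m * (Dg j / (m ^ 2 * Fintype.card F)) := by
    have : (∑ i, Ex j i) < ∑ i : Fin m, (Dg j / (m ^ 2 * Fintype.card F)) := by
      apply Finset.sum_lt_sum_of_nonempty
      · exact ⟨⟨0, hm⟩, Finset.mem_univ _⟩
      · intro i _
        exact lt_of_lt_of_le (h2 i) h1
    simpa using this
  refine ⟨h3, ?_⟩
  have h4 : (Dg j / (m ^ 2 * Fintype.card F)) * (m ^ 2 * Fintype.card F) ≤ Dg j :=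
    Nat.div_mul_le_self _ _
  generalize Dg j / (m ^ 2 * Fintype.card F) = b at h1 h2 h3 h4 ⊢
  obtain ⟨r, hr⟩ : ∃ r, Fintype.card F = r + 1 := ⟨Fintype.card F - 1, by omega⟩
  rw [hr] at h4 ⊢
  simp only [Nat.add_sub_cancel]
  have h5 : m * b ≤ m * (m * b) := by
    nlinarith [Nat.zero_le (m * b)]
  calc m * b * (m * r) + ∑ i, Ex j i ≤ m * b * (m * r) + m * b := by omega
    _ ≤ m * b * (m * r) + m * (m * b) := by omega
    _ = b * (m ^ 2 * (r + 1)) := by ring
    _ ≤ Dg j := h4

/-- The combinatorial core. -/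
theorem core (hm : 1 ≤ m) (a : (Fin m → F) → (Fin m → F)) (M : F → (Fin m → F) → ℕ)
    (E : (Fin m → F) → ℕ) (hE : ∀ w, 4 * E w ≤ ∑ t, M t (a w + t • w)) :
    ∑ w, E w * (E w / (m ^ 2 * Fintype.card F)) ^ m ≤ ∑ t, ∑ y, (M t y) ^ (m + 1) := by
  classical
  by_contra hcon
  push Not at hcon
  set q := Fintype.card F with hq
  have hq1 : 1 < q := Fintype.one_lt_card
  set B : (Fin m → F) → ℕ := fun w => E w / (m ^ 2 * q) with hB
  have hBw : ∀ w, B w = E w / (m ^ 2 * Fintype.card F) := fun w => rfl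
  have hcard : Fintype.card (KK M) < Fintype.card (JJ E B) := by
    rw [card_KK, card_JJ]
    exact hcon
  obtain ⟨c, hc0, hc⟩ := exists_c M E B hcard
  obtain ⟨j0, hj0⟩ : ∃ j, c j ≠ 0 := by
    by_contra h
    push Not at h
    exact hc0 (funext h)
  obtain ⟨j1, hj1, hj1max⟩ := Finset.exists_max_image
    (Finset.univ.filter (fun j => c j ≠ 0)) (fun j => Dg j) ⟨j0, by simp [hj0]⟩
  rw [Finset.mem_filter] at hj1
  obtain ⟨j2, hj2, hj2min⟩ := Finset.exists_min_image
    (Finset.univ.filter (fun j => c j ≠ 0 ∧ j.1 = j1.1 ∧ Dg j = Dg j1))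
    (fun j => ∑ i, Ex j i) ⟨j1, by simp [hj1.2]⟩
  rw [Finset.mem_filter] at hj2
  obtain ⟨-, hj2c, hj2w, hj2D⟩ := hj2
  have hmax : ∀ j, c j ≠ 0 → Dg j ≤ Dg j2 := by
    intro j hj
    rw [hj2D]
    exact hj1max j (by simp [hj])
  have hmin : ∀ j, c j ≠ 0 → j.1 = j2.1 → Dg j = Dg j2 → ∑ i, Ex j2 i ≤ ∑ i, Ex j i := by
    intro j h1 h2 h3
    exact hj2min j (by simp [h1, h2, h3, hj2w, hj2D])
  set w := j2.1 with hw
  set D := Dg j2 with hD
  set α : Fin m →₀ ℕ := fs (Ex j2) with hα
  have hαd : Finsupp.degree α = ∑ i, Ex j2 i := fs_degree _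
  set R := coeff α (Sub (a w) w (PP c)) with hR
  -- degrees of the blocks
  have hbd : ∀ j : JJ E B, LD (Dg j) (Th (Sub (a w) w (Kak.hm (Dg j) (Bl j)))) (Tr w (Bl j)) := by
    intro j
    apply Th_Sub_hm
    intro β hβ
    exact (Gp_degree _ _ _ β hβ).trans (block_degree hm hBw j).2
  have hTh : Th (Sub (a w) w (PP c)) =
      ∑ j, Polynomial.C (C (c j)) * Th (Sub (a w) w (Kak.hm (Dg j) (Bl j))) := by
    unfold PP
    rw [map_sum, map_sum]
    exact Finset.sum_congr rfl (fun j _ => Th_smul_C _ _ _ _)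
  have hdeg : ∀ N, D < N → (Th (Sub (a w) w (PP c))).coeff N = 0 := by
    intro N hN
    rw [hTh, Polynomial.finsetSum_coeff]
    refine Finset.sum_eq_zero (fun j _ => ?_)
    rw [Polynomial.coeff_C_mul]
    by_cases h : c j = 0
    · rw [h]; simp
    · rw [Polynomial.coeff_eq_zero_of_natDegree_lt
        (lt_of_le_of_lt ((hbd j).1.trans (hmax j h)) hN), mul_zero]
  have hαD : Finsupp.degree α ≤ D := by
    have := (block_degree hm hBw j2).2
    rw [hαd]
    omega
  -- the leading coefficient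
  have hlead : R.coeff (D - Finsupp.degree α) = c j2 := by
    have h1 := Th_coeff (Sub (a w) w (PP c)) α D
    rw [if_pos hαD] at h1
    rw [hR, ← h1, hTh, Polynomial.finsetSum_coeff, MvPolynomial.coeff_sum]
    rw [Finset.sum_eq_single j2]
    · rw [Polynomial.coeff_C_mul, (hbd j2).2, MvPolynomial.coeff_C_mul]
      have h2 : coeff α (Tr w (Bl j2)) = 1 := by
        unfold Bl
        rw [coeff_Tr_Gp_self w _ _ α (by rw [hαd]), if_pos (fs_coe _)]
      rw [h2, mul_one]
    · intro j _ hj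
      rw [Polynomial.coeff_C_mul, MvPolynomial.coeff_C_mul]
      by_cases h : c j = 0
      · rw [h, zero_mul]
      rcases lt_or_eq_of_le (hmax j h) with h3 | h3
      · rw [Polynomial.coeff_eq_zero_of_natDegree_lt (lt_of_le_of_lt (hbd j).1 h3)]
        simp
      · rw [← h3, (hbd j).2]
        have h4 : coeff α (Tr w (Bl j)) = 0 := by
          by_cases h5 : j.1 = w
          · unfold Bl
            rw [h5, coeff_Tr_Gp_self w _ _ α (by rw [hαd]; exact hmin j h h5 h3), if_neg]
            intro h6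
            apply hj
            rw [hα, fs_coe] at h6
            exact JJ_ext j j2 h5 h3 h6.symm
          · unfold Bl
            apply coeff_Tr_Gp_ne w j.1 h5
            rw [h3, hαd]
            exact (block_degree hm hBw j2).1
        rw [h4, mul_zero]
    · intro h
      exact absurd (Finset.mem_univ _) h
  have hR0 : R ≠ 0 := by
    intro h
    rw [h] at hlead
    simp only [Polynomial.coeff_zero] at hlead
    exact hj2c hlead.symm
  have hRdeg : R.natDegree ≤ D - Finsupp.degree α := by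
    rw [Polynomial.natDegree_le_iff_coeff_eq_zero]
    intro N hN
    have h1 := Th_coeff (Sub (a w) w (PP c)) α (N + Finsupp.degree α)
    rw [hdeg _ (by omega), if_pos (by omega)] at h1
    simpa using h1.symm
  -- divisibility
  have hdvd : ∏ t : F, (Polynomial.X - Polynomial.C t) ^ (M t (a w + t • w) - Finsupp.degree α) ∣
      R := by
    apply Finset.prod_dvd_of_coprime
    · intro s _ t _ hst
      apply IsCoprime.pow
      exact Polynomial.pairwise_coprime_X_sub_C Function.injective_id hst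
    · intro t _
      apply dvd_coeff
      intro β j hj
      exact hc t _ β j hj
  have hsum : ∑ t : F, (M t (a w + t • w) - Finsupp.degree α) ≤ R.natDegree := by
    have h1 := Polynomial.natDegree_le_of_dvd hdvd hR0
    rw [Polynomial.natDegree_prod_of_monic] at h1
    · simpa using h1
    · intro t _
      exact (Polynomial.monic_X_sub_C t).pow _
  -- numerics
  have hnum1 : ∑ t : F, M t (a w + t • w) ≤
      ∑ t : F, (M t (a w + t • w) - Finsupp.degree α) + q * Finsupp.degree α := by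
    have : ∑ t : F, M t (a w + t • w) ≤
        ∑ t : F, ((M t (a w + t • w) - Finsupp.degree α) + Finsupp.degree α) := by
      refine Finset.sum_le_sum (fun t _ => ?_)
      omega
    rw [Finset.sum_add_distrib] at this
    simpa [hq] using this
  have hEw := hE w
  have hDE : D ≤ 2 * E w := by
    have : (j2.2.1 : ℕ) < E j2.1 := j2.2.1.2
    simp only [hD, Dg, hw]
    omega
  have hEpos : 0 < E w := lt_of_le_of_lt (Nat.zero_le _) j2.2.1.2
  have hαB : q * Finsupp.degree α ≤ E w := by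
    have h1 : Finsupp.degree α ≤ m * (E w / (m ^ 2 * q)) := by
      rw [hαd]
      have : (∑ i, Ex j2 i) ≤ ∑ i : Fin m, (E w / (m ^ 2 * q)) := by
        apply Finset.sum_le_sum
        intro i _
        exact le_of_lt (j2.2.2 i).2
      simpa using this
    have h2 : (E w / (m ^ 2 * q)) * (m ^ 2 * q) ≤ E w := Nat.div_mul_le_self _ _
    calc q * Finsupp.degree α ≤ q * (m * (E w / (m ^ 2 * q))) := Nat.mul_le_mul_left _ h1
      _ = (E w / (m ^ 2 * q)) * (m * q) := by ring
      _ ≤ (E w / (m ^ 2 * q)) * (m ^ 2 * q) := by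
        apply Nat.mul_le_mul_left
        apply Nat.mul_le_mul_right
        nlinarith
      _ ≤ E w := h2
  omega

end Setup

end Pool.Agent.Y323.KP.Kak
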