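import Mathlib

set_option autoImplicit false

/-!
# Project KP: the `k`-plane maximal operator over finite fields (S04919). Statements of the blocks.
-/

open Finset

namespace Pool.Agent.Y323.KP

/-- TRUNC: strong type at the vertex by truncation, for a `0-1` valued kernel. -/
def TaskTrunc : Prop := ∀ n k : ℕ, 2 ≤ k → k < n → ∀ C₁ : ℝ, 0 < C₁ → ∃ C₂ : ℝ, 0 < C₂ ∧
  ∀ (Ω X : Type) [Fintype Ω] [Fintype X] (κ : Ω → X → ℝ) (Q : ℝ), 1 ≤ Q →
    (∀ ω x, 0 ≤ κ ω x) → (∀ ω x, κ ω x ≤ 1) → (∀ ω, ∑ x, κ ω x ≤ Q) →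
    (∀ f : X → ℝ, (∀ x, 0 ≤ f x) →
      ∑ ω, (∑ x, κ ω x * f x) ^ (n - 1) ≤ C₁ * (Fintype.card Ω : ℝ) *
        ((∑ x, f x ^ (((n : ℝ) - 1) / ((k : ℝ) - 1))) ^ (k - 1) +
          Q⁻¹ * (∑ x, f x ^ (((n : ℝ) - 1) / k)) ^ k)) →
    ∀ f : X → ℝ, (∀ x, 0 ≤ f x) →
      ∑ ω, (∑ x, κ ω x * f x) ^ n ≤
        C₂ * (Fintype.card Ω : ℝ) * (∑ x, f x ^ ((n : ℝ) / k)) ^ k

/-- XRAY: mixed norm estimate for the sums along lines. -/
def TaskXray : Prop := ∀ n k : ℕ, 2 ≤ k → k < n → ∃ C : ℝ, 0 < C ∧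
  ∀ (F V : Type) [Field F] [Fintype F] [AddCommGroup V] [Module F V] [Fintype V] [DecidableEq V],
    Fintype.card V = Fintype.card F ^ n →
    ∀ f : V → ℝ, (∀ x, 0 ≤ f x) →
    ∑ e ∈ univ.filter (fun e : V => e ≠ 0),
      ((Fintype.card F : ℝ)⁻¹ *
        ∑ x, (∑ t : F, f (x + t • e)) ^ (((n : ℝ) - 1) / ((k : ℝ) - 1))) ^ (k - 1) ≤
      C * (Fintype.card F : ℝ) ^ n *
        ((∑ x, f x ^ (((n : ℝ) - 1) / ((k : ℝ) - 1))) ^ (k - 1) +
          ((Fintype.card F : ℝ) ^ k)⁻¹ * (∑ x, f x ^ (((n : ℝ) - 1) / k)) ^ k)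

/-- the `k`-dimensional subspaces -/
abbrev Gr (F V : Type) [Field F] [AddCommGroup V] [Module F V] (k : ℕ) : Type :=
  {W : Submodule F V // Module.finrank F W = k}

/-- the maximal function -/
noncomputable def TT (F : Type) {V : Type} [Field F] [AddCommGroup V] [Module F V]
    (f : V → ℝ) (W : Submodule F V) : ℝ :=
  ⨆ a : V, ∑ᶠ w : W, f (a + (w : V))

/-- the sums along the cosets of the line spanned by `e` -/
noncomputable def gq (F : Type) {V : Type} [Field F] [AddCommGroup V] [Module F V]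
    (f : V → ℝ) (e : V) (y : V ⧸ (Submodule.span F {e})) : ℝ :=
  ∑ᶠ x : {x : V // Submodule.Quotient.mk x = y}, f x

/-- GRCARD: the number of `k`-dimensional subspaces depends only on the dimension. -/
def TaskGrCard : Prop := ∀ (F V V' : Type) [Field F] [Finite F] [AddCommGroup V] [Module F V]
  [Finite V] [AddCommGroup V'] [Module F V'] [Finite V'] (k : ℕ),
  Module.finrank F V = Module.finrank F V' → Nat.card (Gr F V k) = Nat.card (Gr F V' k)

/-- GRSUM: double counting of the pairs `0 ≠ e ∈ W`. -/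
def TaskGrSum : Prop := ∀ (F V : Type) [Field F] [Fintype F] [AddCommGroup V] [Module F V]
  [Fintype V] [DecidableEq V] (k : ℕ), 1 ≤ k → ∀ Φ : Submodule F V → ℝ,
  ((Fintype.card F : ℝ) ^ k - 1) * ∑ᶠ W : Gr F V k, Φ W.1 =
    ∑ e ∈ univ.filter (fun e : V => e ≠ 0),
      ∑ᶠ W' : Gr F (V ⧸ (Submodule.span F {e})) (k - 1),
        Φ (W'.1.comap (Submodule.span F {e}).mkQ)

/-- GRMAX: the maximal function of `f` at `W ∋ e` is that of `gq f e` at `W / e`. -/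
def TaskGrMax : Prop := ∀ (F V : Type) [Field F] [Finite F] [AddCommGroup V] [Module F V]
  [Finite V] (f : V → ℝ) (e : V) (W' : Submodule F (V ⧸ (Submodule.span F {e}))),
  TT F f (W'.comap (Submodule.span F {e}).mkQ) = TT F (gq F f e) W'

/-- GRFIB: sums over the quotient. -/
def TaskGrFib : Prop := ∀ (F V : Type) [Field F] [Fintype F] [AddCommGroup V] [Module F V]
  [Fintype V] (f : V → ℝ) (e : V), e ≠ 0 → ∀ s : ℝ,
  ∑ᶠ y : V ⧸ (Submodule.span F {e}), (gq F f e y) ^ s =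
    (Fintype.card F : ℝ)⁻¹ * ∑ x, (∑ t : F, f (x + t • e)) ^ s

/-- The strong type estimate of the `k`-plane maximal operator in dimension `n`. -/
def Strong (n k : ℕ) : Prop := ∃ C : ℝ, 0 < C ∧
  ∀ (F V : Type) [Field F] [Fintype F] [AddCommGroup V] [Module F V] [Fintype V],
    Module.finrank F V = n → ∀ f : V → ℝ, (∀ x, 0 ≤ f x) →
    ∑ᶠ W : Gr F V k, (TT F f W.1) ^ n ≤
      C * (Nat.card (Gr F V k) : ℝ) * (∑ x, f x ^ ((n : ℝ) / k)) ^ k

/-- KAK: the maximal estimate in one coordinate chart. -/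
def TaskKak : Prop := ∀ m : ℕ, 1 ≤ m → ∃ C : ℝ, 0 < C ∧
  ∀ (F : Type) [Field F] [Fintype F] (a : (Fin m → F) → (Fin m → F)) (f : F → (Fin m → F) → ℝ),
    (∀ t y, 0 ≤ f t y) →
    ∑ w : Fin m → F, (∑ t : F, f t (a w + t • w)) ^ (m + 1) ≤
      C * (Fintype.card F : ℝ) ^ m * ∑ t : F, ∑ y : Fin m → F, f t y ^ (m + 1)

/-- BASE: the case `k = 1`. -/
def TaskBase : Prop := TaskKak → ∀ n : ℕ, 2 ≤ n → Strong n 1

/-- STEP: the induction step. -/
def TaskStep : Prop := TaskTrunc → TaskXray → TaskGrCard → TaskGrSum → TaskGrMax → TaskGrFib →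
  ∀ n k : ℕ, 2 ≤ k → k < n → Strong (n - 1) (k - 1) → Strong n k

end Pool.Agent.Y323.KP
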