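import Mathlib
import Pool.Agent.Y323.KP.Stm

set_option autoImplicit false

/-!
# The last step: induction over `k`, and the statement over `Fin n → F`
-/

namespace Pool.Agent.Y323.KP

theorem strong_all (hKak : TaskKak) (hBase : TaskBase) (hTrunc : TaskTrunc) (hXray : TaskXray)
    (hCard : TaskGrCard) (hSum : TaskGrSum) (hMax : TaskGrMax) (hFib : TaskGrFib)
    (hStep : TaskStep) : ∀ k : ℕ, 0 < k → ∀ n : ℕ, k < n → Strong n k := by
  intro k hk
  induction k with
  | zero => exact absurd hk (lt_irrefl 0)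
  | succ k ih =>
    intro n hn
    rcases Nat.eq_zero_or_pos k with h | h
    · subst h
      exact hBase hKak n hn
    · have h1 := ih h (n - 1) (by omega)
      exact hStep hTrunc hXray hCard hSum hMax hFib n (k + 1) (by omega) hn
        (by simpa using h1)

theorem frozen_of_strong (h : ∀ k : ℕ, 0 < k → ∀ n : ℕ, k < n → Strong n k) :
    ∀ n k : ℕ, 0 < k → k < n → ∃ C : ℝ, 0 < C ∧
      ∀ (F : Type) [Field F] [Fintype F] (f : (Fin n → F) → ℝ),
        (∑ᶠ W : {W : Submodule F (Fin n → F) // Module.finrank F W = k},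
            (⨆ a : Fin n → F, ∑ᶠ w : W.1, |f (a + (w : Fin n → F))|) ^ n)
          ≤ C * (Nat.card {W : Submodule F (Fin n → F) // Module.finrank F W = k} : ℝ)
              * (∑ x : Fin n → F, |f x| ^ ((n : ℝ) / k)) ^ k := by
  intro n k hk hkn
  obtain ⟨C, hC, hC2⟩ := h k hk n hkn
  refine ⟨C, hC, ?_⟩
  intro F _ _ f
  exact hC2 F (Fin n → F) (by simp) (fun x => |f x|) (fun x => abs_nonneg _)

end Pool.Agent.Y323.KP
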