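import Pool.Agent.Y323.KP.Stm

set_option autoImplicit false

/-!
# Project KP: the maximal function on the quotient (`TaskGrMax`), sums over fibres (`TaskGrFib`)
-/

open Finset

namespace Pool.Agent.Y323.KP

open Classical in
theorem gq_eq {F V : Type} [Field F] [AddCommGroup V] [Module F V] [Fintype V]
    (f : V → ℝ) (e : V) (y : V ⧸ (Submodule.span F {e})) :
    gq F f e y = ∑ x ∈ univ.filter
      (fun x : V => (Submodule.Quotient.mk x : V ⧸ (Submodule.span F {e})) = y), f x := by
  unfold gq
  rw [finsum_eq_sum_of_fintype]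
  exact (Finset.sum_subtype (univ.filter
    (fun x : V => (Submodule.Quotient.mk x : V ⧸ (Submodule.span F {e})) = y))
    (fun x => by simp) f).symm

theorem grmax : TaskGrMax := by
  classical
  intro F V _ _ _ _ _ f e W'
  letI : Fintype V := Fintype.ofFinite V
  unfold TT
  have key : ∀ a : V, ∑ᶠ w : W'.comap (Submodule.span F {e}).mkQ, f (a + (w : V)) =
      ∑ᶠ w : W', gq F f e ((Submodule.Quotient.mk a : V ⧸ (Submodule.span F {e})) +
        (w : V ⧸ (Submodule.span F {e}))) := by
    intro a
    letI : Fintype (V ⧸ (Submodule.span F {e})) := Fintype.ofFinite _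
    rw [finsum_eq_sum_of_fintype, finsum_eq_sum_of_fintype]
    have e1 : ∑ w : W'.comap (Submodule.span F {e}).mkQ, f (a + (w : V)) =
        ∑ x ∈ univ.filter (fun x : V =>
          (Submodule.Quotient.mk x : V ⧸ (Submodule.span F {e})) ∈ W'), f (a + x) :=
      (Finset.sum_subtype (univ.filter (fun x : V =>
          (Submodule.Quotient.mk x : V ⧸ (Submodule.span F {e})) ∈ W'))
        (p := fun x => x ∈ W'.comap (Submodule.span F {e}).mkQ)
        (fun x => by simp [Submodule.mem_comap]) (fun x => f (a + x))).symm
    have e2 : ∑ w : W', gq F f e ((Submodule.Quotient.mk a : V ⧸ (Submodule.span F {e})) +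
        (w : V ⧸ (Submodule.span F {e}))) =
        ∑ w ∈ univ.filter (fun w : V ⧸ (Submodule.span F {e}) => w ∈ W'),
          gq F f e ((Submodule.Quotient.mk a : V ⧸ (Submodule.span F {e})) + w) :=
      (Finset.sum_subtype (univ.filter (fun w : V ⧸ (Submodule.span F {e}) => w ∈ W'))
        (p := fun w => w ∈ W') (fun w => by simp)
        (fun w => gq F f e ((Submodule.Quotient.mk a : V ⧸ (Submodule.span F {e})) + w))).symm
    rw [e1, e2]
    have e3 : ∀ w : V ⧸ (Submodule.span F {e}),
        gq F f e ((Submodule.Quotient.mk a : V ⧸ (Submodule.span F {e})) + w) =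
        ∑ x ∈ univ.filter (fun x : V =>
          (Submodule.Quotient.mk x : V ⧸ (Submodule.span F {e})) = w), f (a + x) := by
      intro w
      rw [gq_eq]
      symm
      refine Finset.sum_bij (fun x _ => a + x) ?_ ?_ ?_ ?_
      · intro x hx
        have hx' := (Finset.mem_filter.1 hx).2
        refine Finset.mem_filter.2 ⟨Finset.mem_univ _, ?_⟩
        rw [Submodule.Quotient.mk_add, hx']
      · intro x _ y _ h
        exact add_left_cancel h
      · intro x hx
        have hx' := (Finset.mem_filter.1 hx).2
        refine ⟨x - a, Finset.mem_filter.2 ⟨Finset.mem_univ _, ?_⟩, by abel⟩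
        rw [Submodule.Quotient.mk_sub, hx']
        abel
      · intro x _
        rfl
    rw [Finset.sum_congr rfl fun w _ => e3 w]
    simp only [Finset.sum_filter]
    have e4 : ∀ w : V ⧸ (Submodule.span F {e}),
        (if w ∈ W' then ∑ x : V, (if (Submodule.Quotient.mk x : V ⧸ (Submodule.span F {e})) = w
          then f (a + x) else 0) else 0) =
        ∑ x : V, (if (Submodule.Quotient.mk x : V ⧸ (Submodule.span F {e})) = w then
          (if w ∈ W' then f (a + x) else 0) else 0) := by
      intro w
      by_cases h : w ∈ W'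
      · simp [h]
      · simp [h]
    rw [Finset.sum_congr rfl fun w _ => e4 w, Finset.sum_comm]
    refine Finset.sum_congr rfl fun x _ => ?_
    rw [Finset.sum_ite_eq]
    simp
  rw [iSup_congr key]
  exact (Submodule.Quotient.mk_surjective (Submodule.span F {e})).iSup_comp
    (fun b => ∑ᶠ w : W', gq F f e (b + (w : V ⧸ (Submodule.span F {e}))))

theorem grfib : TaskGrFib := by
  classical
  intro F V _ _ _ _ _ f e he s
  letI : Fintype (V ⧸ (Submodule.span F {e})) := Fintype.ofFinite _
  have hq : (Fintype.card F : ℝ) ≠ 0 := by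
    exact_mod_cast Fintype.card_ne_zero
  -- the fibre of the class of `x`
  have hfib : ∀ x : V, univ.filter (fun x' : V =>
      (Submodule.Quotient.mk x' : V ⧸ (Submodule.span F {e})) = Submodule.Quotient.mk x) =
      univ.image (fun t : F => x + t • e) := by
    intro x
    ext x'
    simp only [Finset.mem_filter, Finset.mem_univ, true_and, Finset.mem_image]
    rw [Submodule.Quotient.eq, Submodule.mem_span_singleton]
    constructor
    · rintro ⟨t, ht⟩
      exact ⟨t, by rw [ht]; abel⟩
    · rintro ⟨t, ht⟩
      exact ⟨t, by rw [← ht]; abel⟩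
  have hinj : ∀ x : V, Function.Injective (fun t : F => x + t • e) := by
    intro x t t' h
    have h1 : t • e = t' • e := add_left_cancel h
    exact smul_left_injective F he h1
  have hgq : ∀ x : V, gq F f e (Submodule.Quotient.mk x) = ∑ t : F, f (x + t • e) := by
    intro x
    rw [gq_eq]
    have := hfib x
    calc ∑ x' ∈ univ.filter (fun x' : V =>
      (Submodule.Quotient.mk x' : V ⧸ (Submodule.span F {e})) = Submodule.Quotient.mk x), f x'
        = ∑ x' ∈ univ.image (fun t : F => x + t • e), f x' := by
          rw [← this]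
      _ = _ := Finset.sum_image (fun t _ t' _ h => hinj x h)
  have hcard : ∀ y : V ⧸ (Submodule.span F {e}), (univ.filter (fun x : V =>
      (Submodule.Quotient.mk x : V ⧸ (Submodule.span F {e})) = y)).card = Fintype.card F := by
    intro y
    obtain ⟨x, rfl⟩ := Submodule.Quotient.mk_surjective _ y
    rw [hfib x, Finset.card_image_of_injective _ (hinj x), Finset.card_univ]
  rw [finsum_eq_sum_of_fintype]
  have h1 : ∑ x : V, (∑ t : F, f (x + t • e)) ^ s =
      ∑ y : V ⧸ (Submodule.span F {e}), (Fintype.card F : ℝ) * (gq F f e y) ^ s := by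
    rw [← Finset.sum_fiberwise univ
      (fun x : V => (Submodule.Quotient.mk x : V ⧸ (Submodule.span F {e})))]
    refine Finset.sum_congr rfl fun y _ => ?_
    have h2 : ∀ x ∈ univ.filter (fun x : V =>
        (Submodule.Quotient.mk x : V ⧸ (Submodule.span F {e})) = y),
        (∑ t : F, f (x + t • e)) ^ s = (gq F f e y) ^ s := by
      intro x hx
      rw [← (Finset.mem_filter.1 hx).2, hgq]
    rw [Finset.sum_congr rfl h2, Finset.sum_const, hcard y, nsmul_eq_mul]
  rw [h1, ← Finset.mul_sum, ← mul_assoc, inv_mul_cancel₀ hq, one_mul]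

end Pool.Agent.Y323.KP
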