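import Pool.Agent.Y323.KP.Stm

set_option autoImplicit false

/-!
# Project KP: the number of subspaces, and double counting (`TaskGrCard`, `TaskGrSum`)
-/

open Finset

namespace Pool.Agent.Y323.KP

theorem grcard : TaskGrCard := by
  intro F V V' _ _ _ _ _ _ _ _ k h
  let e : V ≃ₗ[F] V' := LinearEquiv.ofFinrankEq V V' h
  refine Nat.card_congr ((Submodule.orderIsoMapComap e).toEquiv.subtypeEquiv ?_)
  intro W
  have : Module.finrank F (W.map (e : V →ₗ[F] V')) = Module.finrank F W := e.finrank_map_eq W
  show Module.finrank F W = k ↔ Module.finrank F (W.map (e : V →ₗ[F] V')) = k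
  rw [this]

/-- The image of a subspace containing `e` in the quotient by the line through `e`. -/
theorem finrank_quot {F V : Type} [Field F] [AddCommGroup V] [Module F V] [Finite V]
    (e : V) (he : e ≠ 0) (T : Submodule F V) (heT : e ∈ T) :
    Module.finrank F (T.map (Submodule.span F {e}).mkQ) + 1 = Module.finrank F T := by
  have hle : Submodule.span F {e} ≤ T := by
    rw [Submodule.span_singleton_le_iff_mem]
    exact heT
  have h1 := Submodule.finrank_quotient_add_finrank T
  have h2 := Submodule.finrank_quotient_add_finrank (T.map (Submodule.span F {e}).mkQ)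
  have h3 := Submodule.finrank_quotient_add_finrank (Submodule.span F {e})
  have h4 := (Submodule.quotientQuotientEquivQuotient (Submodule.span F {e}) T hle).finrank_eq
  have h5 : Module.finrank F (Submodule.span F {e}) = 1 := finrank_span_singleton he
  omega

theorem finrank_comap {F V : Type} [Field F] [AddCommGroup V] [Module F V] [Finite V]
    (e : V) (he : e ≠ 0) (W' : Submodule F (V ⧸ (Submodule.span F {e}))) :
    Module.finrank F (W'.comap (Submodule.span F {e}).mkQ) = Module.finrank F W' + 1 := by
  have h := finrank_quot e he (W'.comap (Submodule.span F {e}).mkQ) (by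
    rw [Submodule.mem_comap, Submodule.mkQ_apply,
      (Submodule.Quotient.mk_eq_zero _).2 (Submodule.mem_span_singleton_self e)]
    exact W'.zero_mem)
  rw [Submodule.map_comap_eq_of_surjective (Submodule.mkQ_surjective _)] at h
  exact h.symm

theorem grsum : TaskGrSum := by
  classical
  intro F V _ _ _ _ _ _ k hk Φ
  have : Finite (Submodule F V) := inferInstance
  letI : Fintype (Gr F V k) := Fintype.ofFinite _
  have h1 : ∀ e ∈ univ.filter (fun e : V => e ≠ 0),
      ∑ᶠ W' : Gr F (V ⧸ (Submodule.span F {e})) (k - 1),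
        Φ (W'.1.comap (Submodule.span F {e}).mkQ) =
      ∑ W ∈ univ.filter (fun W : Gr F V k => e ∈ W.1), Φ W.1 := by
    intro e he
    have he0 : e ≠ 0 := (Finset.mem_filter.1 he).2
    letI : Fintype (Gr F (V ⧸ (Submodule.span F {e})) (k - 1)) := Fintype.ofFinite _
    rw [finsum_eq_sum_of_fintype]
    refine Finset.sum_bij (fun W' _ => ⟨W'.1.comap (Submodule.span F {e}).mkQ, ?_⟩) ?_ ?_ ?_ ?_
    · rw [finrank_comap e he0, W'.2]
      omega
    · intro W' _
      refine Finset.mem_filter.2 ⟨Finset.mem_univ _, ?_⟩
      show e ∈ W'.1.comap (Submodule.span F {e}).mkQ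
      rw [Submodule.mem_comap, Submodule.mkQ_apply,
        (Submodule.Quotient.mk_eq_zero _).2 (Submodule.mem_span_singleton_self e)]
      exact W'.1.zero_mem
    · intro W₁ _ W₂ _ h
      have h' : W₁.1.comap (Submodule.span F {e}).mkQ = W₂.1.comap (Submodule.span F {e}).mkQ :=
        Subtype.ext_iff.1 h
      exact Subtype.ext (Submodule.comap_injective_of_surjective (Submodule.mkQ_surjective _) h')
    · intro W hW
      have heW : e ∈ W.1 := (Finset.mem_filter.1 hW).2
      refine ⟨⟨W.1.map (Submodule.span F {e}).mkQ, ?_⟩, Finset.mem_univ _, ?_⟩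
      · have := finrank_quot e he0 W.1 heW
        have h2 := W.2
        omega
      · apply Subtype.ext
        show (W.1.map (Submodule.span F {e}).mkQ).comap (Submodule.span F {e}).mkQ = W.1
        rw [Submodule.comap_map_mkQ]
        rw [sup_eq_right, Submodule.span_singleton_le_iff_mem]
        exact heW
    · intro W' _
      rfl
  rw [Finset.sum_congr rfl h1, finsum_eq_sum_of_fintype]
  have h2 : ∑ e ∈ univ.filter (fun e : V => e ≠ 0),
      ∑ W ∈ univ.filter (fun W : Gr F V k => e ∈ W.1), Φ W.1 =
      ∑ W : Gr F V k, ∑ e ∈ (univ.filter (fun e : V => e ≠ 0)).filter (fun e => e ∈ W.1),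
        Φ W.1 := by
    simp only [Finset.sum_filter]
    rw [Finset.sum_comm]
    refine Finset.sum_congr rfl fun e _ => ?_
    by_cases h : e ≠ 0
    · simp [h]
    · simp [h]
  rw [h2, Finset.mul_sum]
  refine Finset.sum_congr rfl fun W _ => ?_
  rw [Finset.sum_const, nsmul_eq_mul]
  congr 1
  have h3 : (univ.filter (fun e : V => e ≠ 0)).filter (fun e => e ∈ W.1) =
      (univ.filter (fun e : V => e ∈ W.1)).erase 0 := by
    ext e
    simp
  have h4 : (univ.filter (fun e : V => e ∈ W.1)).card = Fintype.card F ^ k := by
    rw [← Fintype.card_subtype]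
    have := Module.card_eq_pow_finrank (K := F) (V := W.1)
    rw [W.2] at this
    rw [← this]
  rw [h3, Finset.card_erase_of_mem (by simp), h4, Nat.cast_sub (Nat.one_le_pow _ _ Fintype.card_pos)]
  push_cast
  ring

end Pool.Agent.Y323.KP
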