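import Mathlib
import Pool.Agent.Y323.KP.Core
import Pool.Agent.Y323.KP.Stm

set_option autoImplicit false

/-!
# The maximal estimate in one coordinate chart (block KAK)
-/

open Finset Filter Topology

namespace Pool.Agent.Y323.KP

lemma tendsto_floor_nat {x : ℝ} (hx : 0 ≤ x) :
    Tendsto (fun N : ℕ => ((⌊(N : ℝ) * x⌋₊ : ℕ) : ℝ) / (N : ℝ)) atTop (𝓝 x) := by
  have h := (tendsto_nat_floor_mul_div_atTop (R := ℝ) hx).comp
    (tendsto_natCast_atTop_atTop (R := ℝ))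
  refine h.congr (fun N => ?_)
  simp [mul_comm]

lemma tendsto_floor_nat_add {x : ℝ} (hx : 0 ≤ x) :
    Tendsto (fun N : ℕ => (((⌊(N : ℝ) * x⌋₊ + 1 : ℕ)) : ℝ) / (N : ℝ)) atTop (𝓝 x) := by
  have h := (tendsto_floor_nat hx).add (tendsto_one_div_atTop_nhds_zero_nat (𝕜 := ℝ))
  rw [add_zero] at h
  refine h.congr (fun N => ?_)
  push_cast
  rw [add_div]

theorem kak : TaskKak := by
  intro m hm
  refine ⟨4 ^ (m + 1) * ((m : ℝ) ^ 2) ^ m, by positivity, ?_⟩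
  intro F _ _ a f hf
  set q : ℝ := (Fintype.card F : ℝ) with hq
  have hq0 : 0 < q := by
    rw [hq]
    exact_mod_cast Fintype.card_pos
  have hm0 : (0 : ℝ) < m := by exact_mod_cast hm
  set h : (Fin m → F) → ℝ := fun w => ∑ t : F, f t (a w + t • w) with hh
  have hh0 : ∀ w, 0 ≤ h w := fun w => Finset.sum_nonneg (fun t _ => hf _ _)
  set c : ℝ := (m : ℝ) ^ 2 * q with hc
  have hc0 : 0 < c := by positivity
  -- the integer inequality
  have hint : ∀ N : ℕ, 0 < N →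
      ∑ w, (((⌊(N : ℝ) * (h w / 4)⌋₊ : ℕ) : ℝ) / N) *
        (((⌊(N : ℝ) * (h w / 4 / c)⌋₊ : ℕ) : ℝ) / N) ^ m ≤
      ∑ t, ∑ y, ((((⌊(N : ℝ) * f t y⌋₊ + 1 : ℕ)) : ℝ) / (N : ℝ)) ^ (m + 1) := by
    intro N hN
    have hN0 : (0 : ℝ) < N := by exact_mod_cast hN
    have h1 := Kak.core hm a (fun t y => ⌊(N : ℝ) * f t y⌋₊ + 1)
      (fun w => ⌊(N : ℝ) * (h w / 4)⌋₊) (by
        intro w
        have h2 : (((4 * ⌊(N : ℝ) * (h w / 4)⌋₊ : ℕ)) : ℝ) ≤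
            ((∑ t, (⌊(N : ℝ) * f t (a w + t • w)⌋₊ + 1) : ℕ) : ℝ) := by
          push_cast
          have h3 : ((⌊(N : ℝ) * (h w / 4)⌋₊ : ℕ) : ℝ) ≤ (N : ℝ) * (h w / 4) :=
            Nat.floor_le (by have := hh0 w; positivity)
          calc (4 : ℝ) * ((⌊(N : ℝ) * (h w / 4)⌋₊ : ℕ) : ℝ) ≤ 4 * ((N : ℝ) * (h w / 4)) := by
                linarith
            _ = ∑ t, (N : ℝ) * f t (a w + t • w) := by
                rw [← Finset.mul_sum]
                simp only [hh]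
                ring
            _ ≤ ∑ t, (((⌊(N : ℝ) * f t (a w + t • w)⌋₊ : ℕ) : ℝ) + 1) := by
                refine Finset.sum_le_sum (fun t _ => ?_)
                exact (Nat.lt_floor_add_one _).le
        exact_mod_cast h2)
    have h4 : ∀ w, ⌊(N : ℝ) * (h w / 4)⌋₊ / (m ^ 2 * Fintype.card F) =
        ⌊(N : ℝ) * (h w / 4 / c)⌋₊ := by
      intro w
      have h5 := Nat.floor_div_natCast ((N : ℝ) * (h w / 4)) (m ^ 2 * Fintype.card F)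
      rw [← h5]
      congr 1
      rw [hc, hq]
      push_cast
      ring
    simp only [h4] at h1
    have h6 : ((∑ w, ⌊(N : ℝ) * (h w / 4)⌋₊ * ⌊(N : ℝ) * (h w / 4 / c)⌋₊ ^ m : ℕ) : ℝ) ≤
        ((∑ t, ∑ y, (⌊(N : ℝ) * f t y⌋₊ + 1) ^ (m + 1) : ℕ) : ℝ) := by
      exact_mod_cast h1
    push_cast at h6
    have h7 : ∑ w, (((⌊(N : ℝ) * (h w / 4)⌋₊ : ℕ) : ℝ) / N) *
        (((⌊(N : ℝ) * (h w / 4 / c)⌋₊ : ℕ) : ℝ) / N) ^ m =
        (∑ w, ((⌊(N : ℝ) * (h w / 4)⌋₊ : ℕ) : ℝ) *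
          ((⌊(N : ℝ) * (h w / 4 / c)⌋₊ : ℕ) : ℝ) ^ m) / (N : ℝ) ^ (m + 1) := by
      rw [Finset.sum_div]
      refine Finset.sum_congr rfl (fun w _ => ?_)
      rw [div_pow, pow_succ]
      field_simp
    have h8 : ∑ t, ∑ y, ((((⌊(N : ℝ) * f t y⌋₊ + 1 : ℕ)) : ℝ) / (N : ℝ)) ^ (m + 1) =
        (∑ t, ∑ y, (((⌊(N : ℝ) * f t y⌋₊ : ℕ) : ℝ) + 1) ^ (m + 1)) / (N : ℝ) ^ (m + 1) := by
      rw [Finset.sum_div]
      refine Finset.sum_congr rfl (fun t _ => ?_)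
      rw [Finset.sum_div]
      refine Finset.sum_congr rfl (fun y _ => ?_)
      rw [div_pow]
      push_cast
      rfl
    rw [h7, h8]
    exact div_le_div_of_nonneg_right h6 (by positivity)
  -- the limit
  have hL : Tendsto (fun N : ℕ => ∑ w, (((⌊(N : ℝ) * (h w / 4)⌋₊ : ℕ) : ℝ) / N) *
        (((⌊(N : ℝ) * (h w / 4 / c)⌋₊ : ℕ) : ℝ) / N) ^ m) atTop
      (𝓝 (∑ w, (h w / 4) * (h w / 4 / c) ^ m)) := by
    refine tendsto_finset_sum _ (fun w _ => ?_)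
    refine Tendsto.mul (tendsto_floor_nat ?_) ((tendsto_floor_nat ?_).pow m)
    · have := hh0 w; positivity
    · have := hh0 w; positivity
  have hR : Tendsto (fun N : ℕ => ∑ t, ∑ y,
      ((((⌊(N : ℝ) * f t y⌋₊ + 1 : ℕ)) : ℝ) / (N : ℝ)) ^ (m + 1)) atTop
      (𝓝 (∑ t, ∑ y, (f t y) ^ (m + 1))) := by
    refine tendsto_finset_sum _ (fun t _ => tendsto_finset_sum _ (fun y _ => ?_))
    exact (tendsto_floor_nat_add (hf t y)).pow _
  have hfin := le_of_tendsto_of_tendsto hL hR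
    ((eventually_gt_atTop 0).mono (fun N hN => hint N hN))
  have h9 : ∑ w, (h w / 4) * (h w / 4 / c) ^ m =
      (∑ w, (h w) ^ (m + 1)) / (4 ^ (m + 1) * c ^ m) := by
    rw [Finset.sum_div]
    refine Finset.sum_congr rfl (fun w _ => ?_)
    rw [div_pow, div_pow, pow_succ, pow_succ]
    field_simp
  rw [h9, div_le_iff₀ (by positivity)] at hfin
  calc ∑ w, (h w) ^ (m + 1) ≤ (∑ t, ∑ y, (f t y) ^ (m + 1)) * (4 ^ (m + 1) * c ^ m) := hfin
    _ = _ := by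
      rw [hc, mul_pow]
      ring

end Pool.Agent.Y323.KP
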