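import Pool.Agent.Y323.KP.Stm

set_option autoImplicit false

/-!
# KP-STEP: the induction step (helper960)
-/

open Finset

namespace Pool.Agent.Y323.KP

section

variable {F V : Type} [Field F] [AddCommGroup V] [Module F V] [Fintype V]

theorem step_kernel (W : Submodule F V) (a : V) (g : V → ℝ) (κ : V → ℝ)
    (hκ : ∀ x, (x - a ∈ W → κ x = 1) ∧ (x - a ∉ W → κ x = 0)) :
    ∑ x, κ x * g x = ∑ᶠ w : W, g (a + (w : V)) := by
  classical
  have hfin : Fintype W := Fintype.ofFinite W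
  rw [finsum_eq_sum_of_fintype, ← Equiv.sum_comp (Equiv.addLeft a) (fun x => κ x * g x)]
  have h1 : ∀ y : V, κ (a + y) * g (a + y) = if y ∈ W then g (a + y) else 0 := by
    intro y
    have h2 := hκ (a + y)
    rw [add_sub_cancel_left] at h2
    split_ifs with h3
    · rw [h2.1 h3, one_mul]
    · rw [h2.2 h3, zero_mul]
  have h4 : ∀ y : V, (fun x => κ x * g x) (Equiv.addLeft a y) = if y ∈ W then g (a + y) else 0 :=
    fun y => h1 y
  simp only [h4]
  rw [← sum_filter]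
  exact Finset.sum_subtype (univ.filter (fun y : V => y ∈ W)) (fun x => by simp) _

theorem step_le_TT (f : V → ℝ) (W : Submodule F V) (a : V) :
    ∑ᶠ w : W, f (a + (w : V)) ≤ TT F f W :=
  le_ciSup (f := fun a : V => ∑ᶠ w : W, f (a + (w : V))) (Set.finite_range _).bddAbove a

theorem step_exists_max (f : V → ℝ) (W : Submodule F V) :
    ∃ a : V, ∑ᶠ w : W, f (a + (w : V)) = TT F f W := by
  obtain ⟨a, ha⟩ := Finite.exists_max (fun a : V => ∑ᶠ w : W, f (a + (w : V)))
  exact ⟨a, le_antisymm (step_le_TT f W a) (ciSup_le ha)⟩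

theorem step_TT_nonneg {f : V → ℝ} (hf : ∀ x, 0 ≤ f x) (W : Submodule F V) : 0 ≤ TT F f W :=
  (finsum_nonneg fun w => hf _).trans (step_le_TT f W 0)

end

theorem step_one {F V : Type} [Field F] [Fintype F] [AddCommGroup V] [Module F V] [Fintype V]
    {n : ℕ} (hdim : Module.finrank F V = n) {e : V} (he : e ≠ 0) :
    Module.finrank F (V ⧸ (Submodule.span F {e})) = n - 1 := by
  have h1 := Submodule.finrank_quotient_add_finrank (Submodule.span F {e})
  rw [finrank_span_singleton he, hdim] at h1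
  omega

/-- the estimate of the `(n - 1)`-st moment -/
theorem step_moment (hX : TaskXray) (hGC : TaskGrCard) (hGS : TaskGrSum) (hGM : TaskGrMax)
    (hGF : TaskGrFib) (n k : ℕ) (hk : 2 ≤ k) (hkn : k < n) (hSt : Strong (n - 1) (k - 1)) :
    ∃ C₁ : ℝ, 0 < C₁ ∧ ∀ (F V : Type) [Field F] [Fintype F] [AddCommGroup V] [Module F V]
      [Fintype V], Module.finrank F V = n → ∀ g : V → ℝ, (∀ x, 0 ≤ g x) →
      ∑ᶠ W : Gr F V k, (TT F g W.1) ^ (n - 1) ≤ C₁ * (Nat.card (Gr F V k) : ℝ) *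
        ((∑ x, g x ^ (((n : ℝ) - 1) / ((k : ℝ) - 1))) ^ (k - 1) +
          ((Fintype.card F : ℝ) ^ k)⁻¹ * (∑ x, g x ^ (((n : ℝ) - 1) / k)) ^ k) := by
  obtain ⟨C', hC', hSt⟩ := hSt
  obtain ⟨Cx, hCx, hX⟩ := hX n k hk hkn
  refine ⟨2 * C' * Cx, by positivity, ?_⟩
  intro F V _ _ _ _ _ hdim g hg
  classical
  set q : ℝ := (Fintype.card F : ℝ) with hq
  have hq2 : (2 : ℝ) ≤ q := by
    rw [hq]
    exact_mod_cast Fintype.one_lt_card (α := F)
  have hcard : Fintype.card V = Fintype.card F ^ n := by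
    rw [Module.card_eq_pow_finrank (K := F) (V := V), hdim]
  set γ : ℕ := Nat.card (Gr F (Fin (n - 1) → F) (k - 1)) with hγ
  have hquot : ∀ e : V, e ≠ 0 → Nat.card (Gr F (V ⧸ (Submodule.span F {e})) (k - 1)) = γ := by
    intro e he
    have : Finite (V ⧸ (Submodule.span F {e})) := Quotient.finite _
    rw [hγ]
    apply hGC
    rw [step_one hdim he, Module.finrank_fin_fun]
  have hqk : 0 < q ^ k - 1 := by
    have : (1 : ℝ) < q ^ k := one_lt_pow₀ (by linarith) (by omega)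
    linarith
  -- the number of subspaces
  have hN : (q ^ k - 1) * (Nat.card (Gr F V k) : ℝ) = (q ^ n - 1) * γ := by
    have h1 := hGS F V k (by omega) (fun _ => 1)
    have h2 : ∀ (α : Type) [Finite α], ∑ᶠ _a : α, (1 : ℝ) = (Nat.card α : ℝ) := by
      intro α _
      have := Fintype.ofFinite α
      rw [finsum_eq_sum_of_fintype, sum_const, card_univ, nsmul_eq_mul, mul_one,
        Nat.card_eq_fintype_card]
    rw [h2] at h1
    rw [h1]
    have h3 : ∀ e ∈ univ.filter (fun e : V => e ≠ 0),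
        ∑ᶠ _W' : Gr F (V ⧸ (Submodule.span F {e})) (k - 1), (1 : ℝ) = (γ : ℝ) := by
      intro e he
      have : Finite (V ⧸ (Submodule.span F {e})) := Quotient.finite _
      rw [h2, hquot e (mem_filter.1 he).2]
    rw [sum_congr rfl h3, sum_const, nsmul_eq_mul]
    congr 1
    have h4 : (univ.filter (fun e : V => e ≠ 0)).card = Fintype.card F ^ n - 1 := by
      rw [filter_ne', card_erase_of_mem (mem_univ _), card_univ, hcard]
    rw [h4, Nat.cast_sub (Nat.one_le_pow _ _ Fintype.card_pos), hq]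
    push_cast
    ring
  -- the moments
  have hM := hGS F V k (by omega) (fun W => (TT F g W) ^ (n - 1))
  have hB : ∀ e ∈ univ.filter (fun e : V => e ≠ 0),
      ∑ᶠ W' : Gr F (V ⧸ (Submodule.span F {e})) (k - 1),
        (TT F g (W'.1.comap (Submodule.span F {e}).mkQ)) ^ (n - 1) ≤
      C' * γ * (q⁻¹ * ∑ x, (∑ t : F, g (x + t • e)) ^ (((n : ℝ) - 1) / ((k : ℝ) - 1))) ^ (k - 1) := by
    intro e he
    have he0 := (mem_filter.1 he).2
    have hfin : Finite (V ⧸ (Submodule.span F {e})) := Quotient.finite _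
    have hft : Fintype (V ⧸ (Submodule.span F {e})) := Fintype.ofFinite _
    have h1 : ∀ W' : Gr F (V ⧸ (Submodule.span F {e})) (k - 1),
        (TT F g (W'.1.comap (Submodule.span F {e}).mkQ)) ^ (n - 1) =
        (TT F (gq F g e) W'.1) ^ (n - 1) := fun W' => by rw [hGM F V g e W'.1]
    rw [finsum_congr h1]
    have hgq : ∀ y, 0 ≤ gq F g e y := fun y => finsum_nonneg fun x => hg _
    have h2 := hSt F (V ⧸ (Submodule.span F {e})) (step_one hdim he0) (gq F g e) hgq
    have h3 := hGF F V g e he0 (((n : ℝ) - 1) / ((k : ℝ) - 1))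
    rw [finsum_eq_sum_of_fintype] at h3
    rw [hquot e he0, Nat.cast_sub (show 1 ≤ n by omega), Nat.cast_sub (show 1 ≤ k by omega),
      Nat.cast_one, h3] at h2
    exact h2
  have hS : (q ^ k - 1) * ∑ᶠ W : Gr F V k, (TT F g W.1) ^ (n - 1) ≤
      C' * γ * (Cx * q ^ n * ((∑ x, g x ^ (((n : ℝ) - 1) / ((k : ℝ) - 1))) ^ (k - 1) +
          (q ^ k)⁻¹ * (∑ x, g x ^ (((n : ℝ) - 1) / k)) ^ k)) := by
    have h1 : (q ^ k - 1) * ∑ᶠ W : Gr F V k, (TT F g W.1) ^ (n - 1) =
      ∑ e ∈ univ.filter (fun e : V => e ≠ 0),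
      ∑ᶠ W' : Gr F (V ⧸ (Submodule.span F {e})) (k - 1),
        (TT F g (W'.1.comap (Submodule.span F {e}).mkQ)) ^ (n - 1) := hM
    rw [h1]
    refine (sum_le_sum hB).trans ?_
    rw [← mul_sum]
    exact mul_le_mul_of_nonneg_left (hX F V hcard g hg) (by positivity)
  set E : ℝ := (∑ x, g x ^ (((n : ℝ) - 1) / ((k : ℝ) - 1))) ^ (k - 1) +
          (q ^ k)⁻¹ * (∑ x, g x ^ (((n : ℝ) - 1) / k)) ^ k with hE
  have hE0 : 0 ≤ E := by
    have h1 : 0 ≤ ∑ x, g x ^ (((n : ℝ) - 1) / ((k : ℝ) - 1)) :=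
      sum_nonneg fun x _ => Real.rpow_nonneg (hg x) _
    have h2 : 0 ≤ ∑ x, g x ^ (((n : ℝ) - 1) / k) :=
      sum_nonneg fun x _ => Real.rpow_nonneg (hg x) _
    positivity
  have h5 : (γ : ℝ) * q ^ n ≤ 2 * ((q ^ k - 1) * (Nat.card (Gr F V k) : ℝ)) := by
    rw [hN]
    have h6 : (2 : ℝ) ≤ q ^ n := by
      calc (2 : ℝ) ≤ q := hq2
        _ = q ^ 1 := (pow_one q).symm
        _ ≤ q ^ n := pow_le_pow_right₀ (by linarith) (by omega)
    have h7 : (0 : ℝ) ≤ γ := Nat.cast_nonneg γ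
    nlinarith
  refine le_of_mul_le_mul_left ?_ hqk
  refine hS.trans ?_
  have h8 : 0 ≤ C' * Cx * E := by positivity
  calc C' * γ * (Cx * q ^ n * E) = (γ * q ^ n) * (C' * Cx * E) := by ring
    _ ≤ (2 * ((q ^ k - 1) * (Nat.card (Gr F V k) : ℝ))) * (C' * Cx * E) :=
        mul_le_mul_of_nonneg_right h5 h8
    _ = (q ^ k - 1) * (2 * C' * Cx * (Nat.card (Gr F V k) : ℝ) * E) := by ring

theorem step : TaskStep := by
  intro hTr hX hGC hGS hGM hGF n k hk hkn hSt
  obtain ⟨C₁, hC₁, hmom⟩ := step_moment hX hGC hGS hGM hGF n k hk hkn hSt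
  obtain ⟨C₂, hC₂, hT⟩ := hTr n k hk hkn C₁ hC₁
  refine ⟨C₂, hC₂, ?_⟩
  intro F V _ _ _ _ _ hdim f hf
  classical
  have hΩ : Fintype (Gr F V k) := Fintype.ofFinite _
  choose a ha using fun W : Gr F V k => step_exists_max f W.1
  set κ : Gr F V k → V → ℝ := fun W x => if x - a W ∈ W.1 then 1 else 0 with hκ
  have hκ1 : ∀ (W : Gr F V k) (x : V), (x - a W ∈ W.1 → κ W x = 1) ∧
      (x - a W ∉ W.1 → κ W x = 0) := fun W x => ⟨fun h => if_pos h, fun h => if_neg h⟩
  have hker : ∀ (W : Gr F V k) (g : V → ℝ), ∑ x, κ W x * g x = ∑ᶠ w : W.1, g (a W + (w : V)) :=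
    fun W g => step_kernel W.1 (a W) g (κ W) (hκ1 W)
  have hQ : (1 : ℝ) ≤ (Fintype.card F : ℝ) ^ k :=
    one_le_pow₀ (by exact_mod_cast Fintype.card_pos (α := F))
  have hκ0 : ∀ W x, 0 ≤ κ W x := by
    intro W x
    rw [hκ]
    dsimp only
    split_ifs <;> norm_num
  have h1 := hT (Gr F V k) V κ ((Fintype.card F : ℝ) ^ k) hQ hκ0 (by
      intro W x
      rw [hκ]
      dsimp only
      split_ifs <;> norm_num) (by
      intro W
      have h2 := hker W (fun _ => 1)
      simp only [mul_one] at h2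
      rw [h2]
      have hW : Fintype W.1 := Fintype.ofFinite _
      rw [finsum_eq_sum_of_fintype, sum_const, card_univ, nsmul_eq_mul, mul_one,
        Module.card_eq_pow_finrank (K := F) (V := W.1), W.2]
      push_cast
      exact le_rfl) (by
      intro g hg
      have h2 := hmom F V hdim g hg
      rw [finsum_eq_sum_of_fintype, Nat.card_eq_fintype_card] at h2
      refine le_trans (sum_le_sum fun W _ => ?_) h2
      rw [hker W g]
      exact pow_le_pow_left₀ (finsum_nonneg fun w => hg _) (step_le_TT g W.1 (a W)) _) f hf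
  rw [finsum_eq_sum_of_fintype, Nat.card_eq_fintype_card]
  simp only [hker, ha] at h1
  exact h1

end Pool.Agent.Y323.KP
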