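import Pool.Agent.Y323.KP.Stm

/-! KP-TRUNC: strong type at the vertex by truncation (helper702). -/

set_option autoImplicit false

open Finset

namespace Pool.Agent.Y323.KP

namespace Tr

/-- the geometric constant -/
noncomputable def cg (ρ : ℝ) : ℝ := (1 - (2 : ℝ) ^ (-ρ))⁻¹

lemma cg_pos {ρ : ℝ} (hρ : 0 < ρ) : 0 < cg ρ := by
  have hs1 : (2 : ℝ) ^ (-ρ) < 1 := Real.rpow_lt_one_of_one_lt_of_neg one_lt_two (by linarith)
  exact inv_pos.2 (by linarith)

lemma geo1 {ρ : ℝ} (hρ : 0 < ρ) (J : ℕ) :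
    ∑ j ∈ range (J + 1), ((2 : ℝ) ^ j) ^ ρ ≤ cg ρ * ((2 : ℝ) ^ J) ^ ρ := by
  unfold cg
  set s : ℝ := (2 : ℝ) ^ (-ρ) with hs
  have hs0 : 0 < s := Real.rpow_pos_of_pos two_pos _
  have hs1 : s < 1 := Real.rpow_lt_one_of_one_lt_of_neg one_lt_two (by linarith)
  have h1s : 0 < 1 - s := by linarith
  induction J with
  | zero =>
    simp only [zero_add, range_one, sum_singleton, pow_zero, Real.one_rpow, mul_one]
    exact (one_le_inv₀ h1s).2 (by linarith)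
  | succ J ih =>
    rw [sum_range_succ]
    have e : ((2 : ℝ) ^ J) ^ ρ = s * ((2 : ℝ) ^ (J + 1)) ^ ρ := by
      rw [hs, pow_succ, Real.mul_rpow (by positivity) (by norm_num), Real.rpow_neg (by norm_num)]
      have : (2 : ℝ) ^ ρ ≠ 0 := (Real.rpow_pos_of_pos two_pos _).ne'
      field_simp
    rw [e] at ih
    refine (add_le_add_left ih _).trans (le_of_eq ?_)
    field_simp
    ring

lemma geo2 {ρ : ℝ} (hρ : 0 < ρ) {T : ℝ} (hT : 0 ≤ T) (J : ℕ) :
    ∑ j ∈ range J, (if (2 : ℝ) ^ j ≤ T then ((2 : ℝ) ^ j) ^ ρ else 0) ≤ cg ρ * T ^ ρ := by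
  induction J with
  | zero => simpa using mul_nonneg (cg_pos hρ).le (Real.rpow_nonneg hT _)
  | succ J ih =>
    by_cases h : (2 : ℝ) ^ J ≤ T
    · calc ∑ j ∈ range (J + 1), (if (2 : ℝ) ^ j ≤ T then ((2 : ℝ) ^ j) ^ ρ else 0)
          ≤ ∑ j ∈ range (J + 1), ((2 : ℝ) ^ j) ^ ρ := by
            apply sum_le_sum
            intro j _
            split_ifs
            · exact le_rfl
            · positivity
        _ ≤ cg ρ * ((2 : ℝ) ^ J) ^ ρ := geo1 hρ J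
        _ ≤ cg ρ * T ^ ρ :=
            mul_le_mul_of_nonneg_left (Real.rpow_le_rpow (by positivity) h hρ.le) (cg_pos hρ).le
    · rw [sum_range_succ, if_neg h, add_zero]
      exact ih

lemma pw {μ ρ : ℝ} (hμ : 0 < μ) (hρ : 0 ≤ ρ) : μ * (4 / μ) ^ (1 - ρ) ≤ 4 * μ ^ ρ := by
  have h1 : (4 / μ) ^ (1 - ρ) = 4 ^ (1 - ρ) / μ ^ (1 - ρ) :=
    Real.div_rpow (by norm_num) hμ.le _
  have h2 : μ = μ ^ ρ * μ ^ (1 - ρ) := by
    rw [← Real.rpow_add hμ]
    simp
  have h3 : (4 : ℝ) ^ (1 - ρ) ≤ 4 := by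
    calc (4 : ℝ) ^ (1 - ρ) ≤ 4 ^ (1 : ℝ) :=
          Real.rpow_le_rpow_of_exponent_le (by norm_num) (by linarith)
      _ = 4 := by simp
  have h4 : 0 < μ ^ (1 - ρ) := Real.rpow_pos_of_pos hμ _
  have h5 : μ * (4 / μ) ^ (1 - ρ) = 4 ^ (1 - ρ) * μ ^ ρ := by
    rw [h1]
    nth_rewrite 1 [h2]
    field_simp
  rw [h5]
  exact mul_le_mul_of_nonneg_right h3 (Real.rpow_nonneg hμ.le _)

section step

variable {n k : ℕ} (hk : 2 ≤ k) (hkn : k < n)

include hk hkn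

lemma ex_facts : (0 : ℝ) < (n : ℝ) / k - 1 ∧ (0 : ℝ) < ((n : ℝ) - 1) / ((k : ℝ) - 1) ∧
    (0 : ℝ) < ((n : ℝ) - 1) / k ∧
    ((n : ℝ) - 1) / ((k : ℝ) - 1) - (n : ℝ) / k = ((n : ℝ) / k - 1) * (1 / ((k : ℝ) - 1)) ∧
    (n : ℝ) / k - ((n : ℝ) - 1) / k = 1 / k ∧ (0 : ℝ) < 1 / ((k : ℝ) - 1) ∧
    (0 : ℝ) < 1 / (k : ℝ) ∧ (0 : ℝ) < (n : ℝ) / k := by
  have h1 : (2 : ℝ) ≤ k := by exact_mod_cast hk
  have h2 : (k : ℝ) + 1 ≤ n := by exact_mod_cast hkn
  have hk0 : (0 : ℝ) < k := by linarith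
  have hk1 : (0 : ℝ) < (k : ℝ) - 1 := by linarith
  refine ⟨?_, div_pos (by linarith) hk1, div_pos (by linarith) hk0, ?_, ?_, by positivity,
    by positivity, div_pos (by linarith) hk0⟩
  · rw [sub_pos, lt_div_iff₀ hk0]; linarith
  · field_simp
    ring
  · field_simp
    ring

lemma step {Ω X : Type} [Fintype Ω] [Fintype X] {κ : Ω → X → ℝ} {Q C₁ : ℝ} (hQ : 1 ≤ Q)
    (hC : 0 < C₁) (h0 : ∀ ω x, 0 ≤ κ ω x) (h1 : ∀ ω x, κ ω x ≤ 1) (hs : ∀ ω, ∑ x, κ ω x ≤ Q)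
    (hyp : ∀ f : X → ℝ, (∀ x, 0 ≤ f x) →
      ∑ ω, (∑ x, κ ω x * f x) ^ (n - 1) ≤ C₁ * (Fintype.card Ω : ℝ) *
        ((∑ x, f x ^ (((n : ℝ) - 1) / ((k : ℝ) - 1))) ^ (k - 1) +
          Q⁻¹ * (∑ x, f x ^ (((n : ℝ) - 1) / k)) ^ k))
    {f : X → ℝ} (hf : ∀ x, 0 ≤ f x) (hn : ∑ x, f x ^ ((n : ℝ) / k) = 1) {lam : ℝ} (hl : 0 < lam) :
    ((univ.filter (fun ω => lam ≤ ∑ x, κ ω x * f x)).card : ℝ) * lam ^ n ≤
      2 ^ (n - 1) * (C₁ * (Fintype.card Ω : ℝ)) *
        (4 * ∑ x, (if lam ≤ 4 * f x ^ (-((n : ℝ) / k - 1)) then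
            lam ^ (1 / ((k : ℝ) - 1)) * f x ^ (((n : ℝ) - 1) / ((k : ℝ) - 1)) else 0) +
        4 * ∑ x, (if lam ≤ 4 * Q * f x then
            (lam / Q) ^ (1 / (k : ℝ)) * f x ^ (((n : ℝ) - 1) / k) else 0)) := by
  classical
  obtain ⟨hp1, ha, hb, hap, hpb, hρ, hσ, hp⟩ := ex_facts hk hkn
  set p : ℝ := (n : ℝ) / k with hpdef
  set a : ℝ := ((n : ℝ) - 1) / ((k : ℝ) - 1) with hadef
  set b : ℝ := ((n : ℝ) - 1) / k with hbdef
  set ρ : ℝ := 1 / ((k : ℝ) - 1) with hρdef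
  set σ : ℝ := 1 / (k : ℝ) with hσdef
  have hQ0 : 0 < Q := by linarith
  set τ₁ : ℝ := (4 / lam) ^ (1 / (p - 1)) with hτ₁
  set τ₂ : ℝ := lam / (4 * Q) with hτ₂
  have h4l : 0 < 4 / lam := by positivity
  have hτ₁p : 0 < τ₁ := Real.rpow_pos_of_pos h4l _
  have hτ₂p : 0 < τ₂ := by positivity
  have hτ₁' : τ₁ ^ (p - 1) = 4 / lam := by
    rw [hτ₁, ← Real.rpow_mul h4l.le, one_div_mul_cancel hp1.ne', Real.rpow_one]
  have hτ₁'' : τ₁ ^ (a - p) = (4 / lam) ^ ρ := by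
    rw [hap, Real.rpow_mul hτ₁p.le, hτ₁']
  set g : X → ℝ := fun x => if τ₂ < f x ∧ f x ≤ τ₁ then f x else 0 with hg
  have hg0 : ∀ x, 0 ≤ g x := by
    intro x; simp only [hg]; split_ifs
    · exact hf x
    · exact le_rfl
  -- pointwise bound
  have hfg : ∀ x, f x ≤ g x + (f x ^ p * (lam / 4) + τ₂) := by
    intro x
    have hfp : 0 ≤ f x ^ p * (lam / 4) := mul_nonneg (Real.rpow_nonneg (hf x) _) (by positivity)
    by_cases h : τ₂ < f x ∧ f x ≤ τ₁
    · simp only [hg, if_pos h]; linarith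
    · simp only [hg, if_neg h]
      by_cases h' : τ₂ < f x
      · have h3 : τ₁ < f x := by
          by_contra h4
          exact h ⟨h', not_lt.1 h4⟩
        have hfx : 0 < f x := hτ₂p.trans h'
        have h5 : 4 / lam ≤ f x ^ (p - 1) := by
          rw [← hτ₁']
          exact Real.rpow_le_rpow hτ₁p.le h3.le hp1.le
        have h6 : f x ^ p = f x * f x ^ (p - 1) := by
          rw [Real.rpow_sub_one hfx.ne']
          field_simp
        have h7 : f x ≤ f x ^ p * (lam / 4) := by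
          rw [h6]
          calc f x = f x * (4 / lam) * (lam / 4) := by field_simp
            _ ≤ f x * f x ^ (p - 1) * (lam / 4) := by gcongr
        linarith
      · have := not_lt.1 h'
        linarith
  have hT : ∀ ω, ∑ x, κ ω x * f x ≤ ∑ x, κ ω x * g x + lam / 2 := by
    intro ω
    have e1 : ∑ x, κ ω x * f x ≤ ∑ x, (κ ω x * g x + (f x ^ p * (lam / 4) + κ ω x * τ₂)) := by
      apply sum_le_sum
      intro x _
      have h3 := mul_le_mul_of_nonneg_left (hfg x) (h0 ω x)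
      have h4 : κ ω x * (f x ^ p * (lam / 4)) ≤ f x ^ p * (lam / 4) :=
        mul_le_of_le_one_left (mul_nonneg (Real.rpow_nonneg (hf x) _) (by positivity)) (h1 ω x)
      nlinarith
    rw [sum_add_distrib, sum_add_distrib, ← sum_mul, ← sum_mul, hn] at e1
    have e2 : (∑ x, κ ω x) * τ₂ ≤ lam / 4 := by
      calc (∑ x, κ ω x) * τ₂ ≤ Q * τ₂ := mul_le_mul_of_nonneg_right (hs ω) hτ₂p.le
        _ = lam / 4 := by rw [hτ₂]; field_simp
    linarith
  set E := univ.filter (fun ω => lam ≤ ∑ x, κ ω x * f x) with hE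
  have hcard : (E.card : ℝ) * (lam / 2) ^ (n - 1) ≤ ∑ ω, (∑ x, κ ω x * g x) ^ (n - 1) := by
    calc (E.card : ℝ) * (lam / 2) ^ (n - 1) = ∑ _ω ∈ E, (lam / 2) ^ (n - 1) := by
          rw [sum_const, nsmul_eq_mul]
      _ ≤ ∑ ω ∈ E, (∑ x, κ ω x * g x) ^ (n - 1) := by
          apply sum_le_sum
          intro ω hω
          have h3 : lam ≤ ∑ x, κ ω x * f x := (mem_filter.1 hω).2
          have h4 := hT ω
          exact pow_le_pow_left₀ (by positivity) (by linarith) _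
      _ ≤ ∑ ω, (∑ x, κ ω x * g x) ^ (n - 1) := by
          apply sum_le_sum_of_subset_of_nonneg (subset_univ _)
          intro ω _ _
          exact pow_nonneg (sum_nonneg fun x _ => mul_nonneg (h0 ω x) (hg0 x)) _
  have hmain := hcard.trans (hyp g hg0)
  -- the sums of powers of g
  set A : ℝ := ∑ x, (if lam ≤ 4 * f x ^ (-(p - 1)) then f x ^ a else 0) with hA
  set B : ℝ := ∑ x, (if lam ≤ 4 * Q * f x then f x ^ b else 0) with hB
  have hA0 : 0 ≤ A := sum_nonneg fun x _ => by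
    split_ifs
    · exact Real.rpow_nonneg (hf x) _
    · exact le_rfl
  have hB0 : 0 ≤ B := sum_nonneg fun x _ => by
    split_ifs
    · exact Real.rpow_nonneg (hf x) _
    · exact le_rfl
  -- for positive f x, the condition
  have hcond : ∀ x, 0 < f x → f x ≤ τ₁ → lam ≤ 4 * f x ^ (-(p - 1)) := by
    intro x hx hx'
    have h3 : f x ^ (p - 1) ≤ 4 / lam := by
      rw [← hτ₁']
      exact Real.rpow_le_rpow hx.le hx' hp1.le
    rw [Real.rpow_neg hx.le]
    have h4 : 0 < f x ^ (p - 1) := Real.rpow_pos_of_pos hx _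
    rw [le_div_iff₀ hl] at h3
    rw [← div_eq_mul_inv, le_div_iff₀ h4]
    linarith
  have hcond' : ∀ x, 0 < f x → lam ≤ 4 * f x ^ (-(p - 1)) → f x ≤ τ₁ := by
    intro x hx hx'
    rw [Real.rpow_neg hx.le] at hx'
    have h4 : 0 < f x ^ (p - 1) := Real.rpow_pos_of_pos hx _
    rw [← div_eq_mul_inv, le_div_iff₀ h4] at hx'
    have h5 : f x ^ (p - 1) ≤ τ₁ ^ (p - 1) := by
      rw [hτ₁', le_div_iff₀ hl]; linarith
    exact (Real.rpow_le_rpow_iff hx.le hτ₁p.le hp1).1 h5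
  have hgA : ∑ x, g x ^ a ≤ A := by
    apply sum_le_sum
    intro x _
    by_cases h : τ₂ < f x ∧ f x ≤ τ₁
    · have hfx : 0 < f x := hτ₂p.trans h.1
      simp only [hg, if_pos h, if_pos (hcond x hfx h.2)]
      exact le_rfl
    · simp only [hg, if_neg h, Real.zero_rpow ha.ne']
      split_ifs
      · exact Real.rpow_nonneg (hf x) _
      · exact le_rfl
  have hgB : ∑ x, g x ^ b ≤ B := by
    apply sum_le_sum
    intro x _
    by_cases h : τ₂ < f x ∧ f x ≤ τ₁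
    · have h3 : lam ≤ 4 * Q * f x := by
        have := h.1
        rw [hτ₂, div_lt_iff₀ (by positivity)] at this
        linarith
      simp only [hg, if_pos h, if_pos h3]
      exact le_rfl
    · simp only [hg, if_neg h, Real.zero_rpow hb.ne']
      split_ifs
      · exact Real.rpow_nonneg (hf x) _
      · exact le_rfl
  have hAle : A ≤ (4 / lam) ^ ρ := by
    rw [← hτ₁'']
    calc A ≤ ∑ x, f x ^ p * τ₁ ^ (a - p) := by
          apply sum_le_sum
          intro x _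
          have h3 : 0 ≤ f x ^ p * τ₁ ^ (a - p) :=
            mul_nonneg (Real.rpow_nonneg (hf x) _) (Real.rpow_nonneg hτ₁p.le _)
          rcases (hf x).eq_or_lt with h | h
          · rw [← h, Real.zero_rpow ha.ne']
            rw [← h] at h3
            split_ifs <;> exact h3
          · split_ifs with h4
            · have h5 := hcond' x h h4
              have h6 : f x ^ a = f x ^ p * f x ^ (a - p) := by
                rw [← Real.rpow_add h]; congr 1; ring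
              rw [h6]
              have h7 : 0 ≤ a - p := by rw [hap]; positivity
              exact mul_le_mul_of_nonneg_left (Real.rpow_le_rpow h.le h5 h7)
                (Real.rpow_nonneg h.le _)
            · exact h3
      _ = τ₁ ^ (a - p) := by rw [← sum_mul, hn, one_mul]
  have hBle : B ≤ (4 / (lam / Q)) ^ σ := by
    have e : (4 / (lam / Q)) ^ σ = τ₂ ^ (-σ) := by
      rw [Real.rpow_neg hτ₂p.le, ← Real.inv_rpow hτ₂p.le]
      congr 1
      rw [hτ₂]; field_simp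
    rw [e]
    calc B ≤ ∑ x, f x ^ p * τ₂ ^ (-σ) := by
          apply sum_le_sum
          intro x _
          have h3 : 0 ≤ f x ^ p * τ₂ ^ (-σ) :=
            mul_nonneg (Real.rpow_nonneg (hf x) _) (Real.rpow_nonneg hτ₂p.le _)
          split_ifs with h4
          · have h5 : τ₂ ≤ f x := by
              rw [hτ₂, div_le_iff₀ (by positivity)]; linarith
            have hfx : 0 < f x := hτ₂p.trans_le h5
            have h6 : f x ^ b = f x ^ p * f x ^ (-σ) := by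
              rw [← Real.rpow_add hfx]; congr 1; linarith
            rw [h6]
            exact mul_le_mul_of_nonneg_left
              (Real.rpow_le_rpow_of_nonpos hτ₂p h5 (by linarith)) (Real.rpow_nonneg hfx.le _)
          · exact h3
      _ = τ₂ ^ (-σ) := by rw [← sum_mul, hn, one_mul]
  have hk1 : (k : ℝ) - 1 ≠ 0 := by
    have : (2 : ℝ) ≤ k := by exact_mod_cast hk
    intro h; linarith
  have hk0 : (k : ℝ) ≠ 0 := by
    have : (2 : ℝ) ≤ k := by exact_mod_cast hk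
    intro h; linarith
  have t1 : lam * (∑ x, g x ^ a) ^ (k - 1) ≤ 4 * lam ^ ρ * A := by
    have hga0 : 0 ≤ ∑ x, g x ^ a := sum_nonneg fun x _ => Real.rpow_nonneg (hg0 x) _
    obtain ⟨m, rfl⟩ : ∃ m, k = m + 2 := ⟨k - 2, by omega⟩
    have e1 : m + 2 - 1 = m + 1 := by omega
    rw [e1]
    have h3 : (∑ x, g x ^ a) ^ (m + 1) ≤ A * ((4 / lam) ^ ρ) ^ m := by
      calc (∑ x, g x ^ a) ^ (m + 1) ≤ A ^ (m + 1) := pow_le_pow_left₀ hga0 hgA _
        _ = A * A ^ m := by ring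
        _ ≤ A * ((4 / lam) ^ ρ) ^ m :=
            mul_le_mul_of_nonneg_left (pow_le_pow_left₀ hA0 hAle _) hA0
    have h4 : ((4 / lam) ^ ρ) ^ m = (4 / lam) ^ (1 - ρ) := by
      rw [← Real.rpow_natCast, ← Real.rpow_mul h4l.le]
      congr 1
      rw [hρdef]
      push_cast at hk1 ⊢
      field_simp
      ring
    rw [h4] at h3
    have h5 := pw hl hρ.le
    calc lam * (∑ x, g x ^ a) ^ (m + 1) ≤ lam * (A * (4 / lam) ^ (1 - ρ)) :=
          mul_le_mul_of_nonneg_left h3 hl.le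
      _ = (lam * (4 / lam) ^ (1 - ρ)) * A := by ring
      _ ≤ 4 * lam ^ ρ * A := mul_le_mul_of_nonneg_right h5 hA0
  have t2 : lam * (Q⁻¹ * (∑ x, g x ^ b) ^ k) ≤ 4 * (lam / Q) ^ σ * B := by
    have hgb0 : 0 ≤ ∑ x, g x ^ b := sum_nonneg fun x _ => Real.rpow_nonneg (hg0 x) _
    have hμ : 0 < lam / Q := by positivity
    obtain ⟨m, rfl⟩ : ∃ m, k = m + 1 := ⟨k - 1, by omega⟩
    have h3 : (∑ x, g x ^ b) ^ (m + 1) ≤ B * ((4 / (lam / Q)) ^ σ) ^ m := by
      calc (∑ x, g x ^ b) ^ (m + 1) ≤ B ^ (m + 1) := pow_le_pow_left₀ hgb0 hgB _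
        _ = B * B ^ m := by ring
        _ ≤ B * ((4 / (lam / Q)) ^ σ) ^ m :=
            mul_le_mul_of_nonneg_left (pow_le_pow_left₀ hB0 hBle _) hB0
    have h4 : ((4 / (lam / Q)) ^ σ) ^ m = (4 / (lam / Q)) ^ (1 - σ) := by
      rw [← Real.rpow_natCast, ← Real.rpow_mul (by positivity)]
      congr 1
      rw [hσdef]
      push_cast at hk0 ⊢
      field_simp
      ring
    rw [h4] at h3
    have h5 := pw hμ hσ.le
    calc lam * (Q⁻¹ * (∑ x, g x ^ b) ^ (m + 1))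
        ≤ lam * (Q⁻¹ * (B * (4 / (lam / Q)) ^ (1 - σ))) := by gcongr
      _ = (lam / Q * (4 / (lam / Q)) ^ (1 - σ)) * B := by rw [div_eq_mul_inv lam Q]; ring
      _ ≤ 4 * (lam / Q) ^ σ * B := mul_le_mul_of_nonneg_right h5 hB0
  have hnn : n = (n - 1) + 1 := by omega
  have e3 : (E.card : ℝ) * lam ^ n = 2 ^ (n - 1) * (lam * ((E.card : ℝ) * (lam / 2) ^ (n - 1))) := by
    have : lam ^ n = lam ^ (n - 1) * lam := by
      conv_lhs => rw [hnn]
      exact pow_succ _ _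
    rw [this, div_pow]
    have hY : (2 : ℝ) ^ (n - 1) ≠ 0 := by positivity
    clear hnn
    generalize (2 : ℝ) ^ (n - 1) = Y at hY ⊢
    generalize lam ^ (n - 1) = X'
    field_simp
  have eA : lam ^ ρ * A = ∑ x, (if lam ≤ 4 * f x ^ (-(p - 1)) then lam ^ ρ * f x ^ a else 0) := by
    rw [hA, mul_sum]
    apply sum_congr rfl
    intro x _
    split_ifs <;> simp
  have eB : (lam / Q) ^ σ * B =
      ∑ x, (if lam ≤ 4 * Q * f x then (lam / Q) ^ σ * f x ^ b else 0) := by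
    rw [hB, mul_sum]
    apply sum_congr rfl
    intro x _
    split_ifs <;> simp
  rw [e3, ← eA, ← eB]
  have hCG : 0 ≤ C₁ * (Fintype.card Ω : ℝ) := by positivity
  calc 2 ^ (n - 1) * (lam * ((E.card : ℝ) * (lam / 2) ^ (n - 1)))
      ≤ 2 ^ (n - 1) * (lam * (C₁ * (Fintype.card Ω : ℝ) *
          ((∑ x, g x ^ a) ^ (k - 1) + Q⁻¹ * (∑ x, g x ^ b) ^ k))) := by gcongr
    _ = 2 ^ (n - 1) * (C₁ * (Fintype.card Ω : ℝ)) *
          (lam * (∑ x, g x ^ a) ^ (k - 1) + lam * (Q⁻¹ * (∑ x, g x ^ b) ^ k)) := by ring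
    _ ≤ 2 ^ (n - 1) * (C₁ * (Fintype.card Ω : ℝ)) * (4 * lam ^ ρ * A + 4 * (lam / Q) ^ σ * B) :=
        mul_le_mul_of_nonneg_left (add_le_add t1 t2) (mul_nonneg (by positivity) hCG)
    _ = _ := by ring

lemma core {Ω X : Type} [Fintype Ω] [Fintype X] {κ : Ω → X → ℝ} {Q C₁ : ℝ} (hQ : 1 ≤ Q)
    (hC : 0 < C₁) (h0 : ∀ ω x, 0 ≤ κ ω x) (h1 : ∀ ω x, κ ω x ≤ 1) (hs : ∀ ω, ∑ x, κ ω x ≤ Q)
    (hyp : ∀ f : X → ℝ, (∀ x, 0 ≤ f x) →
      ∑ ω, (∑ x, κ ω x * f x) ^ (n - 1) ≤ C₁ * (Fintype.card Ω : ℝ) *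
        ((∑ x, f x ^ (((n : ℝ) - 1) / ((k : ℝ) - 1))) ^ (k - 1) +
          Q⁻¹ * (∑ x, f x ^ (((n : ℝ) - 1) / k)) ^ k))
    {f : X → ℝ} (hf : ∀ x, 0 ≤ f x) (hn : ∑ x, f x ^ ((n : ℝ) / k) = 1) :
    ∑ ω, (∑ x, κ ω x * f x) ^ n ≤
      (1 + 2 ^ n * (2 ^ (n - 1) * C₁ * (4 * (cg (1 / ((k : ℝ) - 1)) * 4 ^ (1 / ((k : ℝ) - 1))) +
        4 * (cg (1 / (k : ℝ)) * 4 ^ (1 / (k : ℝ)))))) * (Fintype.card Ω : ℝ) := by
  classical
  obtain ⟨hp1, ha, hb, hap, hpb, hρ, hσ, hp⟩ := ex_facts hk hkn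
  have hQ0 : 0 < Q := by linarith
  have hTn : ∀ ω, 0 ≤ ∑ x, κ ω x * f x := fun ω =>
    sum_nonneg fun x _ => mul_nonneg (h0 ω x) (hf x)
  obtain ⟨J, hJ⟩ := pow_unbounded_of_one_lt (∑ ω, ∑ x, κ ω x * f x) (one_lt_two (α := ℝ))
  have hJ' : ∀ ω, ∑ x, κ ω x * f x < 2 ^ J := fun ω =>
    (single_le_sum (f := fun ω => ∑ x, κ ω x * f x) (fun i _ => hTn i) (mem_univ ω)).trans_lt hJ
  have hpt : ∀ ω, (∑ x, κ ω x * f x) ^ n ≤
      1 + ∑ j ∈ range J, (if (2 : ℝ) ^ j ≤ ∑ x, κ ω x * f x then (2 * (2 : ℝ) ^ j) ^ n else 0) := by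
    intro ω
    set T := ∑ x, κ ω x * f x with hT
    have hpos : ∀ j ∈ range J, (0 : ℝ) ≤ (if (2 : ℝ) ^ j ≤ T then (2 * (2 : ℝ) ^ j) ^ n else 0) := by
      intro j _
      split_ifs <;> positivity
    rcases lt_or_ge T 1 with h | h
    · have : T ^ n ≤ 1 := pow_le_one₀ (hTn ω) h.le
      linarith [sum_nonneg hpos]
    · obtain ⟨j, hj1, hj2⟩ := exists_nat_pow_near h (one_lt_two (α := ℝ))
      have hjJ : j < J := by
        by_contra hcon
        have : (2 : ℝ) ^ J ≤ 2 ^ j := pow_le_pow_right₀ one_le_two (not_lt.1 hcon)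
        linarith [hJ' ω]
      have h3 := single_le_sum hpos (mem_range.2 hjJ)
      rw [if_pos hj1] at h3
      have h4 : T ^ n ≤ (2 * (2 : ℝ) ^ j) ^ n := by
        apply pow_le_pow_left₀ (hTn ω)
        rw [pow_succ] at hj2
        linarith
      linarith
  have hsum : ∑ ω, (∑ x, κ ω x * f x) ^ n ≤ (Fintype.card Ω : ℝ) +
      ∑ j ∈ range J, 2 ^ n *
        (((univ.filter (fun ω => (2 : ℝ) ^ j ≤ ∑ x, κ ω x * f x)).card : ℝ) * ((2 : ℝ) ^ j) ^ n) := by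
    refine (sum_le_sum fun ω _ => hpt ω).trans (le_of_eq ?_)
    rw [sum_add_distrib, sum_comm]
    congr 1
    · simp
    · apply sum_congr rfl
      intro j _
      rw [← sum_filter, sum_const, nsmul_eq_mul, mul_pow]
      ring
  set G : ℝ := (Fintype.card Ω : ℝ) with hG
  have hG0 : 0 ≤ G := by positivity
  have hstep : ∀ j ∈ range J, 2 ^ n *
        (((univ.filter (fun ω => (2 : ℝ) ^ j ≤ ∑ x, κ ω x * f x)).card : ℝ) * ((2 : ℝ) ^ j) ^ n) ≤
      2 ^ n * (2 ^ (n - 1) * (C₁ * G) *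
        (4 * ∑ x, (if (2 : ℝ) ^ j ≤ 4 * f x ^ (-((n : ℝ) / k - 1)) then
            ((2 : ℝ) ^ j) ^ (1 / ((k : ℝ) - 1)) * f x ^ (((n : ℝ) - 1) / ((k : ℝ) - 1)) else 0) +
        4 * ∑ x, (if (2 : ℝ) ^ j ≤ 4 * Q * f x then
            ((2 : ℝ) ^ j / Q) ^ (1 / (k : ℝ)) * f x ^ (((n : ℝ) - 1) / k) else 0))) := by
    intro j _
    exact mul_le_mul_of_nonneg_left
      (step hk hkn hQ hC h0 h1 hs hyp hf hn (by positivity)) (by positivity)
  have hfin := hsum.trans (add_le_add_right (sum_le_sum hstep) _)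
  have s1 : ∑ j ∈ range J, ∑ x, (if (2 : ℝ) ^ j ≤ 4 * f x ^ (-((n : ℝ) / k - 1)) then
            ((2 : ℝ) ^ j) ^ (1 / ((k : ℝ) - 1)) * f x ^ (((n : ℝ) - 1) / ((k : ℝ) - 1)) else 0) ≤
      cg (1 / ((k : ℝ) - 1)) * 4 ^ (1 / ((k : ℝ) - 1)) := by
    rw [sum_comm]
    calc _ ≤ ∑ x, cg (1 / ((k : ℝ) - 1)) * 4 ^ (1 / ((k : ℝ) - 1)) * f x ^ ((n : ℝ) / k) := by
          apply sum_le_sum
          intro x _
          rcases (hf x).eq_or_lt with h | h
          · rw [← h, Real.zero_rpow ha.ne', Real.zero_rpow hp.ne']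
            simp
          · have hT0 : 0 ≤ 4 * f x ^ (-((n : ℝ) / k - 1)) := by positivity
            have h3 := geo2 hρ hT0 J
            have h4 : ∑ j ∈ range J, (if (2 : ℝ) ^ j ≤ 4 * f x ^ (-((n : ℝ) / k - 1)) then
                ((2 : ℝ) ^ j) ^ (1 / ((k : ℝ) - 1)) * f x ^ (((n : ℝ) - 1) / ((k : ℝ) - 1)) else 0)
                = (∑ j ∈ range J, (if (2 : ℝ) ^ j ≤ 4 * f x ^ (-((n : ℝ) / k - 1)) then
                ((2 : ℝ) ^ j) ^ (1 / ((k : ℝ) - 1)) else 0)) *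
                  f x ^ (((n : ℝ) - 1) / ((k : ℝ) - 1)) := by
              rw [sum_mul]
              apply sum_congr rfl
              intro j _
              split_ifs <;> simp
            rw [h4]
            refine (mul_le_mul_of_nonneg_right h3 (Real.rpow_nonneg h.le _)).trans (le_of_eq ?_)
            rw [Real.mul_rpow (by norm_num) (Real.rpow_nonneg h.le _), ← Real.rpow_mul h.le]
            rw [mul_assoc, mul_assoc, ← Real.rpow_add h, mul_assoc]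
            congr 3
            linarith [hap, neg_mul ((n : ℝ) / k - 1) (1 / ((k : ℝ) - 1))]
      _ = _ := by rw [← mul_sum, hn, mul_one]
  have s2 : ∑ j ∈ range J, ∑ x, (if (2 : ℝ) ^ j ≤ 4 * Q * f x then
            ((2 : ℝ) ^ j / Q) ^ (1 / (k : ℝ)) * f x ^ (((n : ℝ) - 1) / k) else 0) ≤
      cg (1 / (k : ℝ)) * 4 ^ (1 / (k : ℝ)) := by
    rw [sum_comm]
    calc _ ≤ ∑ x, cg (1 / (k : ℝ)) * 4 ^ (1 / (k : ℝ)) * f x ^ ((n : ℝ) / k) := by
          apply sum_le_sum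
          intro x _
          rcases (hf x).eq_or_lt with h | h
          · rw [← h, Real.zero_rpow hb.ne', Real.zero_rpow hp.ne']
            simp
          · have hT0 : 0 ≤ 4 * Q * f x := by positivity
            have h3 := geo2 hσ hT0 J
            have h4 : ∑ j ∈ range J, (if (2 : ℝ) ^ j ≤ 4 * Q * f x then
                ((2 : ℝ) ^ j / Q) ^ (1 / (k : ℝ)) * f x ^ (((n : ℝ) - 1) / k) else 0)
                = (∑ j ∈ range J, (if (2 : ℝ) ^ j ≤ 4 * Q * f x then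
                ((2 : ℝ) ^ j) ^ (1 / (k : ℝ)) else 0)) *
                  ((Q ^ (1 / (k : ℝ)))⁻¹ * f x ^ (((n : ℝ) - 1) / k)) := by
              rw [sum_mul]
              apply sum_congr rfl
              intro j _
              split_ifs
              · rw [Real.div_rpow (by positivity) hQ0.le]
                ring
              · simp
            rw [h4]
            refine (mul_le_mul_of_nonneg_right h3 (by positivity)).trans (le_of_eq ?_)
            rw [Real.mul_rpow (by positivity) h.le, Real.mul_rpow (by norm_num) hQ0.le]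
            have hQr : (Q : ℝ) ^ (1 / (k : ℝ)) ≠ 0 := (Real.rpow_pos_of_pos hQ0 _).ne'
            have e5 : f x ^ ((n : ℝ) / k) = f x ^ (1 / (k : ℝ)) * f x ^ (((n : ℝ) - 1) / k) := by
              rw [← Real.rpow_add h]; congr 1; linarith
            rw [e5]
            field_simp
      _ = _ := by rw [← mul_sum, hn, mul_one]
  refine hfin.trans ?_
  rw [← mul_sum, ← mul_sum, sum_add_distrib, ← mul_sum, ← mul_sum]
  have hfin2 : 2 ^ n * (2 ^ (n - 1) * (C₁ * G) *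
      (4 * (cg (1 / ((k : ℝ) - 1)) * 4 ^ (1 / ((k : ℝ) - 1))) +
        4 * (cg (1 / (k : ℝ)) * 4 ^ (1 / (k : ℝ))))) =
      2 ^ n * (2 ^ (n - 1) * C₁ * (4 * (cg (1 / ((k : ℝ) - 1)) * 4 ^ (1 / ((k : ℝ) - 1))) +
        4 * (cg (1 / (k : ℝ)) * 4 ^ (1 / (k : ℝ))))) * G := by ring
  rw [add_mul, one_mul, ← hfin2]
  gcongr

end step

end Tr

open Tr in
/-- Strong type at the vertex by truncation. -/
theorem trunc : TaskTrunc := by
  intro n k hk hkn C₁ hC
  obtain ⟨hp1, ha, hb, hap, hpb, hρ, hσ, hp⟩ := ex_facts hk hkn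
  have hc1 := cg_pos hρ
  have hc2 := cg_pos hσ
  refine ⟨1 + 2 ^ n * (2 ^ (n - 1) * C₁ * (4 * (cg (1 / ((k : ℝ) - 1)) * 4 ^ (1 / ((k : ℝ) - 1))) +
        4 * (cg (1 / (k : ℝ)) * 4 ^ (1 / (k : ℝ))))), by positivity, ?_⟩
  set C₂ := 1 + 2 ^ n * (2 ^ (n - 1) * C₁ * (4 * (cg (1 / ((k : ℝ) - 1)) * 4 ^ (1 / ((k : ℝ) - 1))) +
        4 * (cg (1 / (k : ℝ)) * 4 ^ (1 / (k : ℝ))))) with hC₂
  intro Ω X _ _ κ Q hQ h0 h1 hs hyp f hf
  set S : ℝ := ∑ x, f x ^ ((n : ℝ) / k) with hS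
  have hS0 : 0 ≤ S := sum_nonneg fun x _ => Real.rpow_nonneg (hf x) _
  have hC₂0 : 0 ≤ C₂ := by rw [hC₂]; positivity
  rcases hS0.eq_or_lt with h | h
  · have hz : ∀ x, f x = 0 := by
      intro x
      have h3 := (sum_eq_zero_iff_of_nonneg (fun x _ => Real.rpow_nonneg (hf x) _)).1 h.symm x
        (mem_univ x)
      exact (Real.rpow_eq_zero (hf x) hp.ne').1 h3
    have hn0 : n ≠ 0 := by omega
    simp only [hz, mul_zero, sum_const_zero, zero_pow hn0]
    positivity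
  · set c : ℝ := S ^ ((k : ℝ) / n) with hc
    have hc0 : 0 < c := Real.rpow_pos_of_pos h _
    have hkR : (k : ℝ) ≠ 0 := by
      have : 0 < k := by omega
      exact_mod_cast this.ne'
    have hnR : (n : ℝ) ≠ 0 := by
      have : 0 < n := by omega
      exact_mod_cast this.ne'
    have hcp : c ^ ((n : ℝ) / k) = S := by
      rw [hc, ← Real.rpow_mul h.le]
      rw [show (k : ℝ) / n * ((n : ℝ) / k) = 1 by field_simp, Real.rpow_one]
    have hcn : c ^ n = S ^ k := by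
      rw [hc, ← Real.rpow_natCast, ← Real.rpow_mul h.le, ← Real.rpow_natCast]
      congr 1
      field_simp
    have h3 := core hk hkn hQ hC h0 h1 hs hyp (f := fun x => f x / c)
      (fun x => div_nonneg (hf x) hc0.le) (by
        have : ∀ x, (f x / c) ^ ((n : ℝ) / k) = f x ^ ((n : ℝ) / k) / S := fun x => by
          rw [Real.div_rpow (hf x) hc0.le, hcp]
        simp only [this]
        rw [← sum_div, ← hS, div_self h.ne'])
    have h4 : ∀ ω, (∑ x, κ ω x * (f x / c)) ^ n = (∑ x, κ ω x * f x) ^ n / S ^ k := by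
      intro ω
      rw [← hcn, ← div_pow, sum_div]
      congr 1
      apply sum_congr rfl
      intro x _
      ring
    simp only [h4] at h3
    rw [← sum_div, div_le_iff₀ (by positivity)] at h3
    exact h3

end Pool.Agent.Y323.KP
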