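import Pool.Agent.Y323.KP.Stm

set_option autoImplicit false

/-!
# Project KP: the mixed norm estimate for sums along lines over finite fields (`TaskXray`)
-/

open Finset

namespace Pool.Agent.Y323.KP

namespace Xr

/-- Either one term carries half of the sum, or the products of different terms are large. -/
theorem alt {ι : Type} [Fintype ι] [DecidableEq ι] (g : ι → ℝ) (hg : ∀ i, 0 ≤ g i) (a b : ℝ)
    (ha : 0 ≤ a) (hb : 1 ≤ b) :
    (∑ i, g i) ^ a ≤ 2 ^ a * ∑ i, g i ^ a ∨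
      (∑ i, g i) ^ (2 * b) ≤ 2 ^ b * (Fintype.card ι : ℝ) ^ (2 * b - 2) *
        ∑ p ∈ univ.filter (fun p : ι × ι => p.1 ≠ p.2), (g p.1 * g p.2) ^ b := by
  have hS : 0 ≤ ∑ i, g i := Finset.sum_nonneg fun i _ => hg i
  by_cases h : ∃ i, (∑ j, g j) / 2 ≤ g i
  · left
    obtain ⟨i, hi⟩ := h
    calc (∑ j, g j) ^ a ≤ (2 * g i) ^ a :=
          Real.rpow_le_rpow hS (by linarith) ha
      _ = 2 ^ a * g i ^ a := Real.mul_rpow (by norm_num) (hg i)
      _ ≤ 2 ^ a * ∑ j, g j ^ a := by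
          refine mul_le_mul_of_nonneg_left ?_ (Real.rpow_nonneg (by norm_num) a)
          exact Finset.single_le_sum (f := fun j => g j ^ a)
            (fun j _ => Real.rpow_nonneg (hg j) a) (Finset.mem_univ i)
  · right
    push Not at h
    set T : ℝ := ∑ p ∈ univ.filter (fun p : ι × ι => p.1 ≠ p.2), g p.1 * g p.2 with hT
    have hT0 : 0 ≤ T := Finset.sum_nonneg fun p _ => mul_nonneg (hg _) (hg _)
    have h1 : (∑ i, g i) ^ 2 = (∑ i, g i * g i) + T := by
      have e1 : (∑ i, g i) ^ 2 = ∑ p : ι × ι, g p.1 * g p.2 := by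
        rw [sq, Finset.sum_mul_sum, ← Finset.univ_product_univ, Finset.sum_product]
      rw [e1, ← Finset.sum_filter_add_sum_filter_not univ (fun p : ι × ι => p.1 = p.2)]
      congr 1
      symm
      refine Finset.sum_bij (fun i _ => (i, i)) ?_ ?_ ?_ ?_
      · intro i _
        simp
      · intro i _ j _ hij
        exact (Prod.ext_iff.1 hij).1
      · rintro ⟨i, j⟩ hij
        have : i = j := by simpa using hij
        exact ⟨i, Finset.mem_univ i, by rw [this]⟩
      · intro i _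
        rfl
    have h2 : (∑ i, g i * g i) ≤ (∑ i, g i) ^ 2 / 2 := by
      calc (∑ i, g i * g i) ≤ ∑ i, g i * ((∑ j, g j) / 2) :=
            Finset.sum_le_sum fun i _ => mul_le_mul_of_nonneg_left (h i).le (hg i)
        _ = (∑ i, g i) ^ 2 / 2 := by rw [← Finset.sum_mul]; ring
    have h3 : (∑ i, g i) ^ 2 ≤ 2 * T := by linarith
    have hb0 : 0 ≤ b := by linarith
    have hcard : (((univ.filter (fun p : ι × ι => p.1 ≠ p.2)).card : ℕ) : ℝ) ≤
        (Fintype.card ι : ℝ) ^ 2 := by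
      have : (univ.filter (fun p : ι × ι => p.1 ≠ p.2)).card ≤ Fintype.card (ι × ι) :=
        Finset.card_le_univ _
      rw [Fintype.card_prod] at this
      rw [sq]
      exact_mod_cast this
    calc (∑ i, g i) ^ (2 * b) = ((∑ i, g i) ^ 2) ^ b := by
          rw [Real.rpow_mul hS]; norm_num
      _ ≤ (2 * T) ^ b := Real.rpow_le_rpow (by positivity) h3 hb0
      _ = 2 ^ b * T ^ b := Real.mul_rpow (by norm_num) hT0
      _ ≤ 2 ^ b * ((((univ.filter (fun p : ι × ι => p.1 ≠ p.2)).card : ℕ) : ℝ) ^ (b - 1) *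
            ∑ p ∈ univ.filter (fun p : ι × ι => p.1 ≠ p.2), (g p.1 * g p.2) ^ b) := by
          refine mul_le_mul_of_nonneg_left ?_ (Real.rpow_nonneg (by norm_num) b)
          exact Real.rpow_sum_le_const_mul_sum_rpow_of_nonneg _ hb
            (fun p _ => mul_nonneg (hg _) (hg _))
      _ ≤ 2 ^ b * ((Fintype.card ι : ℝ) ^ (2 * b - 2) *
            ∑ p ∈ univ.filter (fun p : ι × ι => p.1 ≠ p.2), (g p.1 * g p.2) ^ b) := by
          refine mul_le_mul_of_nonneg_left ?_ (Real.rpow_nonneg (by norm_num) b)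
          refine mul_le_mul_of_nonneg_right ?_
            (Finset.sum_nonneg fun p _ => Real.rpow_nonneg (mul_nonneg (hg _) (hg _)) b)
          have e2 : (Fintype.card ι : ℝ) ^ (2 * b - 2) = ((Fintype.card ι : ℝ) ^ 2) ^ (b - 1) := by
            rw [show 2 * b - 2 = 2 * (b - 1) by ring, Real.rpow_mul (by positivity)]
            norm_num
          rw [e2]
          exact Real.rpow_le_rpow (by positivity) hcard (by linarith)
      _ = _ := by ring

/-- Weighted power mean. -/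
theorem wpm {ι : Type} (s : Finset ι) (w z : ι → ℝ) (hw : ∀ i ∈ s, 0 ≤ w i)
    (hz : ∀ i ∈ s, 0 ≤ z i) (p : ℕ) :
    (∑ i ∈ s, w i * z i) ^ (p + 1) ≤ (∑ i ∈ s, w i) ^ p * ∑ i ∈ s, w i * z i ^ (p + 1) := by
  rcases (Finset.sum_nonneg hw).lt_or_eq with h | h
  · have h1 := Real.pow_arith_mean_le_arith_mean_pow s (fun i => w i / ∑ j ∈ s, w j) z
      (fun i hi => div_nonneg (hw i hi) h.le)
      (by rw [← Finset.sum_div]; exact div_self h.ne') hz (p + 1)
    have e1 : ∑ i ∈ s, w i / (∑ j ∈ s, w j) * z i = (∑ i ∈ s, w i * z i) / ∑ j ∈ s, w j := by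
      rw [Finset.sum_div]
      exact Finset.sum_congr rfl fun i _ => by ring
    have e2 : ∑ i ∈ s, w i / (∑ j ∈ s, w j) * z i ^ (p + 1) =
        (∑ i ∈ s, w i * z i ^ (p + 1)) / ∑ j ∈ s, w j := by
      rw [Finset.sum_div]
      exact Finset.sum_congr rfl fun i _ => by ring
    rw [e1, e2, div_pow, div_le_div_iff₀ (pow_pos h _) h] at h1
    have h2 : (∑ i ∈ s, w i * z i) ^ (p + 1) * (∑ j ∈ s, w j) ≤
        ((∑ i ∈ s, w i) ^ p * ∑ i ∈ s, w i * z i ^ (p + 1)) * (∑ j ∈ s, w j) := by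
      refine h1.trans (le_of_eq ?_)
      ring
    exact le_of_mul_le_mul_right h2 h
  · have h0 : ∀ i ∈ s, w i = 0 := (Finset.sum_eq_zero_iff_of_nonneg hw).1 h.symm
    have e1 : ∑ i ∈ s, w i * z i = 0 :=
      Finset.sum_eq_zero fun i hi => by rw [h0 i hi, zero_mul]
    have e2 : ∑ i ∈ s, w i * z i ^ (p + 1) = 0 :=
      Finset.sum_eq_zero fun i hi => by rw [h0 i hi, zero_mul]
    rw [e1, e2, mul_zero, zero_pow (Nat.succ_ne_zero p)]

section field

variable {F V : Type} [Field F] [Fintype F] [AddCommGroup V] [Module F V] [Fintype V]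
  [DecidableEq V]

theorem card_pos' : 0 < (Fintype.card F : ℝ) := by
  exact_mod_cast Fintype.card_pos

/-- Translation invariance. -/
theorem trans_sum (g : V → ℝ) (e : V) (t : F) : ∑ x, g (x + t • e) = ∑ x, g x :=
  Equiv.sum_comp (Equiv.addRight (t • e)) g

theorem line_sum (g : V → ℝ) (e : V) :
    ∑ x, ∑ t : F, g (x + t • e) = (Fintype.card F : ℝ) * ∑ x, g x := by
  rw [Finset.sum_comm, Finset.sum_congr rfl (fun t _ => trans_sum g e t), Finset.sum_const,
    Finset.card_univ, nsmul_eq_mul]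

/-- The correlation term at one direction. -/
noncomputable def XX (F : Type) {V : Type} [Field F] [Fintype F] [AddCommGroup V] [Module F V]
    [Fintype V] (f : V → ℝ) (b : ℝ) (e : V) : ℝ :=
  letI : DecidableEq F := Classical.decEq F
  (Fintype.card F : ℝ)⁻¹ * ∑ x, ∑ p ∈ univ.filter (fun p : F × F => p.1 ≠ p.2),
    (f (x + p.1 • e) * f (x + p.2 • e)) ^ b

theorem per_e (f : V → ℝ) (hf : ∀ x, 0 ≤ f x) (e : V) (a b : ℝ) (ha : 0 ≤ a) (hb : 1 ≤ b)
    (p : ℕ) (hab : a = b + b / ((p : ℝ) + 1)) :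
    ((Fintype.card F : ℝ)⁻¹ * ∑ x, (∑ t : F, f (x + t • e)) ^ a) ^ (p + 1) ≤
      2 ^ p * ((2 ^ a * ∑ x, f x ^ a) ^ (p + 1) +
        ((Fintype.card F : ℝ) ^ (b - 1) * ∑ x, f x ^ b) ^ p *
          (2 ^ b * (Fintype.card F : ℝ) ^ (2 * b - 2) * XX F f b e)) := by
  classical
  have hq : 0 < (Fintype.card F : ℝ) := card_pos'
  set q : ℝ := (Fintype.card F : ℝ) with hqd
  have hb0 : 0 ≤ b := by linarith
  set S : V → ℝ := fun x => ∑ t : F, f (x + t • e) with hSd
  have hS : ∀ x, 0 ≤ S x := fun x => Finset.sum_nonneg fun t _ => hf _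
  set D : V → Prop := fun x => S x ^ a ≤ 2 ^ a * ∑ t : F, f (x + t • e) ^ a with hD
  have hfa : ∀ x, 0 ≤ f x ^ a := fun x => Real.rpow_nonneg (hf x) a
  have hfb : ∀ x, 0 ≤ f x ^ b := fun x => Real.rpow_nonneg (hf x) b
  have hsplit : ∑ x, S x ^ a = ∑ x ∈ univ.filter D, S x ^ a +
      ∑ x ∈ univ.filter (fun x => ¬ D x), S x ^ a :=
    (Finset.sum_filter_add_sum_filter_not univ D _).symm
  have hP0 : 0 ≤ q⁻¹ * ∑ x ∈ univ.filter D, S x ^ a :=
    mul_nonneg (inv_nonneg.2 hq.le) (Finset.sum_nonneg fun x _ => Real.rpow_nonneg (hS x) a)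
  have hQ0 : 0 ≤ q⁻¹ * ∑ x ∈ univ.filter (fun x => ¬ D x), S x ^ a :=
    mul_nonneg (inv_nonneg.2 hq.le) (Finset.sum_nonneg fun x _ => Real.rpow_nonneg (hS x) a)
  have hP : q⁻¹ * ∑ x ∈ univ.filter D, S x ^ a ≤ 2 ^ a * ∑ x, f x ^ a := by
    have h1 : ∑ x ∈ univ.filter D, S x ^ a ≤ ∑ x, 2 ^ a * ∑ t : F, f (x + t • e) ^ a := by
      calc ∑ x ∈ univ.filter D, S x ^ a
          ≤ ∑ x ∈ univ.filter D, 2 ^ a * ∑ t : F, f (x + t • e) ^ a :=
            Finset.sum_le_sum fun x hx => (Finset.mem_filter.1 hx).2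
        _ ≤ _ := Finset.sum_le_sum_of_subset_of_nonneg (Finset.filter_subset _ _)
            (fun x _ _ => mul_nonneg (Real.rpow_nonneg (by norm_num) a)
              (Finset.sum_nonneg fun t _ => hfa _))
    rw [← Finset.mul_sum, line_sum (fun x => f x ^ a) e] at h1
    calc q⁻¹ * ∑ x ∈ univ.filter D, S x ^ a
        ≤ q⁻¹ * (2 ^ a * (q * ∑ x, f x ^ a)) := mul_le_mul_of_nonneg_left h1 (by positivity)
      _ = 2 ^ a * ∑ x, f x ^ a := by field_simp
  have hQ : (q⁻¹ * ∑ x ∈ univ.filter (fun x => ¬ D x), S x ^ a) ^ (p + 1) ≤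
      (q ^ (b - 1) * ∑ x, f x ^ b) ^ p * (2 ^ b * q ^ (2 * b - 2) * XX F f b e) := by
    have hbp : 0 ≤ b / ((p : ℝ) + 1) := by positivity
    have e1 : ∀ x, S x ^ a = S x ^ b * S x ^ (b / ((p : ℝ) + 1)) := fun x => by
      rw [hab, Real.rpow_add_of_nonneg (hS x) hb0 hbp]
    have e2 : ∀ x, S x ^ b * (S x ^ (b / ((p : ℝ) + 1))) ^ (p + 1) = S x ^ (2 * b) := fun x => by
      have hp1 : ((p : ℝ) + 1) ≠ 0 := by positivity
      rw [← Real.rpow_natCast, ← Real.rpow_mul (hS x)]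
      rw [show b / ((p : ℝ) + 1) * ((p + 1 : ℕ) : ℝ) = b by push_cast; field_simp]
      rw [← Real.rpow_add_of_nonneg (hS x) hb0 hb0]
      congr 1
      ring
    have h1 := wpm (univ.filter (fun x => ¬ D x)) (fun x => S x ^ b)
      (fun x => S x ^ (b / ((p : ℝ) + 1))) (fun x _ => Real.rpow_nonneg (hS x) _)
      (fun x _ => Real.rpow_nonneg (hS x) _) p
    simp only [e2] at h1
    have e3 : ∑ x ∈ univ.filter (fun x => ¬ D x), S x ^ a =
        ∑ x ∈ univ.filter (fun x => ¬ D x), S x ^ b * S x ^ (b / ((p : ℝ) + 1)) :=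
      Finset.sum_congr rfl fun x _ => e1 x
    have h2 : ∑ x ∈ univ.filter (fun x => ¬ D x), S x ^ b ≤ q * (q ^ (b - 1) * ∑ x, f x ^ b) := by
      calc ∑ x ∈ univ.filter (fun x => ¬ D x), S x ^ b ≤ ∑ x, S x ^ b :=
            Finset.sum_le_sum_of_subset_of_nonneg (Finset.filter_subset _ _)
              (fun x _ _ => Real.rpow_nonneg (hS x) b)
        _ ≤ ∑ x, q ^ (b - 1) * ∑ t : F, f (x + t • e) ^ b := by
            refine Finset.sum_le_sum fun x _ => ?_
            have := Real.rpow_sum_le_const_mul_sum_rpow_of_nonneg (univ : Finset F) (p := b)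
              (f := fun t => f (x + t • e)) hb (fun t _ => hf _)
            rw [Finset.card_univ] at this
            exact this
        _ = q * (q ^ (b - 1) * ∑ x, f x ^ b) := by
            rw [← Finset.mul_sum, line_sum (fun x => f x ^ b) e]
            ring
    have h3 : ∑ x ∈ univ.filter (fun x => ¬ D x), S x ^ (2 * b) ≤
        q * (2 ^ b * q ^ (2 * b - 2) * XX F f b e) := by
      have h4 : ∀ x ∈ univ.filter (fun x => ¬ D x), S x ^ (2 * b) ≤
          2 ^ b * q ^ (2 * b - 2) * ∑ p ∈ univ.filter (fun p : F × F => p.1 ≠ p.2),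
            (f (x + p.1 • e) * f (x + p.2 • e)) ^ b := by
        intro x hx
        have hnd := (Finset.mem_filter.1 hx).2
        exact (alt (fun t : F => f (x + t • e)) (fun t => hf _) a b ha hb).resolve_left hnd
      calc ∑ x ∈ univ.filter (fun x => ¬ D x), S x ^ (2 * b)
          ≤ ∑ x ∈ univ.filter (fun x => ¬ D x),
            2 ^ b * q ^ (2 * b - 2) * ∑ p ∈ univ.filter (fun p : F × F => p.1 ≠ p.2),
              (f (x + p.1 • e) * f (x + p.2 • e)) ^ b := Finset.sum_le_sum h4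
        _ ≤ ∑ x, 2 ^ b * q ^ (2 * b - 2) * ∑ p ∈ univ.filter (fun p : F × F => p.1 ≠ p.2),
              (f (x + p.1 • e) * f (x + p.2 • e)) ^ b :=
            Finset.sum_le_sum_of_subset_of_nonneg (Finset.filter_subset _ _)
              (fun x _ _ => mul_nonneg (mul_nonneg (Real.rpow_nonneg (by norm_num) _)
                (Real.rpow_nonneg hq.le _)) (Finset.sum_nonneg fun p _ =>
                  Real.rpow_nonneg (mul_nonneg (hf _) (hf _)) b))
        _ = q * (2 ^ b * q ^ (2 * b - 2) * XX F f b e) := by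
            rw [← Finset.mul_sum]
            have hX : ∑ x, ∑ p ∈ univ.filter (fun p : F × F => p.1 ≠ p.2),
              (f (x + p.1 • e) * f (x + p.2 • e)) ^ b = q * XX F f b e := by
              unfold XX
              rw [← mul_assoc, mul_inv_cancel₀ hq.ne', one_mul]
            rw [hX]
            ring
    rw [mul_pow, e3]
    have h5 : (∑ x ∈ univ.filter (fun x => ¬ D x), S x ^ b * S x ^ (b / ((p : ℝ) + 1))) ^ (p + 1) ≤
        (q * (q ^ (b - 1) * ∑ x, f x ^ b)) ^ p * (q * (2 ^ b * q ^ (2 * b - 2) * XX F f b e)) := by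
      refine h1.trans ?_
      refine mul_le_mul ?_ h3 (Finset.sum_nonneg fun x _ => Real.rpow_nonneg (hS x) _) ?_
      · exact pow_le_pow_left₀ (Finset.sum_nonneg fun x _ => Real.rpow_nonneg (hS x) _) h2 p
      · exact pow_nonneg (mul_nonneg hq.le (mul_nonneg (Real.rpow_nonneg hq.le _)
          (Finset.sum_nonneg fun x _ => hfb x))) p
    calc q⁻¹ ^ (p + 1) *
        (∑ x ∈ univ.filter (fun x => ¬ D x), S x ^ b * S x ^ (b / ((p : ℝ) + 1))) ^ (p + 1)
        ≤ q⁻¹ ^ (p + 1) * ((q * (q ^ (b - 1) * ∑ x, f x ^ b)) ^ p *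
          (q * (2 ^ b * q ^ (2 * b - 2) * XX F f b e))) :=
          mul_le_mul_of_nonneg_left h5 (by positivity)
      _ = (q⁻¹ * q) ^ (p + 1) * ((q ^ (b - 1) * ∑ x, f x ^ b) ^ p *
          (2 ^ b * q ^ (2 * b - 2) * XX F f b e)) := by
          rw [mul_pow q (q ^ (b - 1) * ∑ x, f x ^ b) p, mul_pow q⁻¹ q (p + 1), pow_succ q p]
          ring
      _ = _ := by rw [inv_mul_cancel₀ hq.ne', one_pow, one_mul]
  rw [hsplit, mul_add]
  calc (q⁻¹ * ∑ x ∈ univ.filter D, S x ^ a +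
        q⁻¹ * ∑ x ∈ univ.filter (fun x => ¬ D x), S x ^ a) ^ (p + 1)
      ≤ 2 ^ (p + 1 - 1) * ((q⁻¹ * ∑ x ∈ univ.filter D, S x ^ a) ^ (p + 1) +
          (q⁻¹ * ∑ x ∈ univ.filter (fun x => ¬ D x), S x ^ a) ^ (p + 1)) :=
        add_pow_le hP0 hQ0 (p + 1)
    _ ≤ _ := by
        rw [Nat.add_sub_cancel]
        refine mul_le_mul_of_nonneg_left ?_ (by positivity)
        exact add_le_add (pow_le_pow_left₀ hP0 hP _) hQ

/-- The correlation terms, summed over the directions. -/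
theorem sum_XX (f : V → ℝ) (hf : ∀ x, 0 ≤ f x) (b : ℝ) :
    ∑ e ∈ univ.filter (fun e : V => e ≠ 0), XX F f b e ≤
      (Fintype.card F : ℝ) * (∑ x, f x ^ b) ^ 2 := by
  classical
  have hq : 0 < (Fintype.card F : ℝ) := card_pos'
  set q : ℝ := (Fintype.card F : ℝ) with hqd
  have hfb : ∀ x, 0 ≤ f x ^ b := fun x => Real.rpow_nonneg (hf x) b
  have hpair : ∀ p ∈ univ.filter (fun p : F × F => p.1 ≠ p.2),
      ∑ e : V, ∑ x, (f (x + p.1 • e) * f (x + p.2 • e)) ^ b = (∑ x, f x ^ b) ^ 2 := by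
    intro p hp
    have hne : p.1 ≠ p.2 := (Finset.mem_filter.1 hp).2
    have hinj : Function.Injective (fun z : V × V => (z.2 + p.1 • z.1, z.2 + p.2 • z.1)) := by
      rintro ⟨e, x⟩ ⟨e', x'⟩ h
      have h1 : x + p.1 • e = x' + p.1 • e' := (Prod.ext_iff.1 h).1
      have h2 : x + p.2 • e = x' + p.2 • e' := (Prod.ext_iff.1 h).2
      have h3 : (p.1 - p.2) • (e - e') = 0 := by
        have : p.1 • e - p.2 • e = p.1 • e' - p.2 • e' := by
          have h4 : (x + p.1 • e) - (x + p.2 • e) = (x' + p.1 • e') - (x' + p.2 • e') := by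
            rw [h1, h2]
          simpa using h4
        rw [sub_smul, smul_sub, smul_sub]
        have h5 : p.1 • e - p.1 • e' - (p.2 • e - p.2 • e') =
            (p.1 • e - p.2 • e) - (p.1 • e' - p.2 • e') := by abel
        rw [h5, this, sub_self]
      have h6 : e = e' := by
        rcases smul_eq_zero.1 h3 with h | h
        · exact absurd (sub_eq_zero.1 h) hne
        · exact sub_eq_zero.1 h
      subst h6
      have h7 : x = x' := by simpa using h1
      rw [h7]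
    have hbij : Function.Bijective (fun z : V × V => (z.2 + p.1 • z.1, z.2 + p.2 • z.1)) :=
      Finite.injective_iff_bijective.1 hinj
    rw [← Finset.sum_product', Finset.univ_product_univ]
    have h8 := hbij.sum_comp (fun z : V × V => (f z.1 * f z.2) ^ b)
    simp only at h8
    rw [h8, sq, Finset.sum_mul_sum, ← Finset.univ_product_univ, Finset.sum_product]
    exact Finset.sum_congr rfl fun x _ => Finset.sum_congr rfl fun y _ =>
      Real.mul_rpow (hf x) (hf y)
  have h1 : ∑ e ∈ univ.filter (fun e : V => e ≠ 0), XX F f b e ≤ ∑ e : V, XX F f b e := by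
    refine Finset.sum_le_sum_of_subset_of_nonneg (Finset.filter_subset _ _) (fun e _ _ => ?_)
    unfold XX
    exact mul_nonneg (by positivity) (Finset.sum_nonneg fun x _ => Finset.sum_nonneg fun p _ =>
      Real.rpow_nonneg (mul_nonneg (hf _) (hf _)) b)
  have h2 : ∑ e : V, XX F f b e = q⁻¹ * ∑ p ∈ univ.filter (fun p : F × F => p.1 ≠ p.2),
      ∑ e : V, ∑ x, (f (x + p.1 • e) * f (x + p.2 • e)) ^ b := by
    unfold XX
    rw [← Finset.mul_sum]
    congr 1
    have h3 : ∀ e : V, ∑ x, ∑ p ∈ univ.filter (fun p : F × F => p.1 ≠ p.2),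
        (f (x + p.1 • e) * f (x + p.2 • e)) ^ b =
        ∑ p ∈ univ.filter (fun p : F × F => p.1 ≠ p.2), ∑ x,
        (f (x + p.1 • e) * f (x + p.2 • e)) ^ b := fun e => Finset.sum_comm
    rw [Finset.sum_comm (s := univ.filter (fun p : F × F => p.1 ≠ p.2))]
    refine Finset.sum_congr rfl fun e _ => ?_
    rw [← h3 e]
  rw [h2, Finset.sum_congr rfl hpair, Finset.sum_const, nsmul_eq_mul] at h1
  refine h1.trans ?_
  have hcard : (((univ.filter (fun p : F × F => p.1 ≠ p.2)).card : ℕ) : ℝ) ≤ q ^ 2 := by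
    have : (univ.filter (fun p : F × F => p.1 ≠ p.2)).card ≤ Fintype.card (F × F) :=
      Finset.card_le_univ _
    rw [Fintype.card_prod] at this
    rw [sq, hqd]
    exact_mod_cast this
  calc q⁻¹ * ((((univ.filter (fun p : F × F => p.1 ≠ p.2)).card : ℕ) : ℝ) * (∑ x, f x ^ b) ^ 2)
      ≤ q⁻¹ * (q ^ 2 * (∑ x, f x ^ b) ^ 2) := by
        refine mul_le_mul_of_nonneg_left ?_ (by positivity)
        exact mul_le_mul_of_nonneg_right hcard (by positivity)
    _ = q * (∑ x, f x ^ b) ^ 2 := by field_simp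

end field

end Xr

theorem xray : TaskXray := by
  intro n k hk hkn
  obtain ⟨p, rfl⟩ : ∃ p, k = p + 2 := ⟨k - 2, by omega⟩
  have hp1 : (0 : ℝ) < (p : ℝ) + 1 := by positivity
  have hn : (p : ℝ) + 3 ≤ n := by exact_mod_cast hkn
  set a : ℝ := ((n : ℝ) - 1) / (((p + 2 : ℕ) : ℝ) - 1) with had
  set b : ℝ := ((n : ℝ) - 1) / ((p + 2 : ℕ) : ℝ) with hbd
  have ha' : a = ((n : ℝ) - 1) / ((p : ℝ) + 1) := by
    rw [had]; push_cast; congr 1; ring
  have hb' : b = ((n : ℝ) - 1) / ((p : ℝ) + 2) := by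
    rw [hbd]; push_cast; rfl
  have hb : 1 ≤ b := by
    rw [hb', le_div_iff₀ (by positivity)]
    linarith
  have ha : 0 ≤ a := by
    rw [ha']
    exact div_nonneg (by linarith) hp1.le
  have hab : a = b + b / ((p : ℝ) + 1) := by
    rw [ha', hb']
    field_simp
    ring
  have h2a : (0 : ℝ) < 2 ^ a := Real.rpow_pos_of_pos (by norm_num) a
  have h2b : (0 : ℝ) < 2 ^ b := Real.rpow_pos_of_pos (by norm_num) b
  refine ⟨2 ^ p * ((2 ^ a) ^ (p + 1) + 2 ^ b), by positivity, ?_⟩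
  intro F V _ _ _ _ _ _ hV f hf
  have hq : 0 < (Fintype.card F : ℝ) := Xr.card_pos'
  have hVR : (Fintype.card V : ℝ) = (Fintype.card F : ℝ) ^ n := by exact_mod_cast hV
  set q : ℝ := (Fintype.card F : ℝ) with hqd
  set A : ℝ := ∑ x, f x ^ a with hA
  set B : ℝ := ∑ x, f x ^ b with hB
  have hA0 : 0 ≤ A := Finset.sum_nonneg fun x _ => Real.rpow_nonneg (hf x) a
  have hB0 : 0 ≤ B := Finset.sum_nonneg fun x _ => Real.rpow_nonneg (hf x) b
  rw [show p + 2 - 1 = p + 1 by omega]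
  have h1 : ∑ e ∈ univ.filter (fun e : V => e ≠ 0),
      (q⁻¹ * ∑ x, (∑ t : F, f (x + t • e)) ^ a) ^ (p + 1) ≤
      ∑ e ∈ univ.filter (fun e : V => e ≠ 0), 2 ^ p * ((2 ^ a * A) ^ (p + 1) +
        (q ^ (b - 1) * B) ^ p * (2 ^ b * q ^ (2 * b - 2) * Xr.XX F f b e)) :=
    Finset.sum_le_sum fun e _ => Xr.per_e f hf e a b ha hb p hab
  refine h1.trans ?_
  rw [← Finset.mul_sum, Finset.sum_add_distrib, ← Finset.mul_sum, ← Finset.mul_sum,
    Finset.sum_const, nsmul_eq_mul]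
  have hcard : (((univ.filter (fun e : V => e ≠ 0)).card : ℕ) : ℝ) ≤ q ^ n := by
    rw [← hVR]
    exact_mod_cast Finset.card_le_univ _
  have hX := Xr.sum_XX (F := F) f hf b
  have hq1 : 0 ≤ q ^ (b - 1) := Real.rpow_nonneg hq.le _
  have hq2 : 0 ≤ q ^ (2 * b - 2) := Real.rpow_nonneg hq.le _
  have h3 : (((univ.filter (fun e : V => e ≠ 0)).card : ℕ) : ℝ) * (2 ^ a * A) ^ (p + 1) ≤
      q ^ n * ((2 ^ a) ^ (p + 1) * A ^ (p + 1)) := by
    rw [← mul_pow]
    exact mul_le_mul_of_nonneg_right hcard (by positivity)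
  have h4 : (q ^ (b - 1) * B) ^ p * (2 ^ b * q ^ (2 * b - 2) *
      ∑ e ∈ univ.filter (fun e : V => e ≠ 0), Xr.XX F f b e) ≤
      q ^ n * (2 ^ b * ((q ^ (p + 2))⁻¹ * B ^ (p + 2))) := by
    calc (q ^ (b - 1) * B) ^ p * (2 ^ b * q ^ (2 * b - 2) *
        ∑ e ∈ univ.filter (fun e : V => e ≠ 0), Xr.XX F f b e)
        ≤ (q ^ (b - 1) * B) ^ p * (2 ^ b * q ^ (2 * b - 2) * (q * B ^ 2)) := by
          refine mul_le_mul_of_nonneg_left ?_ (by positivity)
          exact mul_le_mul_of_nonneg_left hX (by positivity)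
      _ = 2 ^ b * ((q ^ (b - 1)) ^ p * q ^ (2 * b - 2) * q) * B ^ (p + 2) := by
          rw [mul_pow]; ring
      _ = q ^ n * (2 ^ b * ((q ^ (p + 2))⁻¹ * B ^ (p + 2))) := by
          have e1 : (q ^ (b - 1)) ^ p * q ^ (2 * b - 2) * q = q ^ n * (q ^ (p + 2))⁻¹ := by
            rw [← Real.rpow_natCast (q ^ (b - 1)) p, ← Real.rpow_mul hq.le, ← Real.rpow_add hq]
            nth_rewrite 2 [← Real.rpow_one q]
            rw [← Real.rpow_add hq, ← Real.rpow_natCast q n, ← Real.rpow_natCast q (p + 2),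
              ← Real.rpow_neg hq.le, ← Real.rpow_add hq]
            congr 1
            have : b * ((p : ℝ) + 2) = (n : ℝ) - 1 := by
              rw [hb']; field_simp
            push_cast
            linarith
          rw [e1]
          ring
  calc 2 ^ p * ((((univ.filter (fun e : V => e ≠ 0)).card : ℕ) : ℝ) * (2 ^ a * A) ^ (p + 1) +
        (q ^ (b - 1) * B) ^ p * (2 ^ b * q ^ (2 * b - 2) *
          ∑ e ∈ univ.filter (fun e : V => e ≠ 0), Xr.XX F f b e))
      ≤ 2 ^ p * (q ^ n * ((2 ^ a) ^ (p + 1) * A ^ (p + 1)) +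
          q ^ n * (2 ^ b * ((q ^ (p + 2))⁻¹ * B ^ (p + 2)))) := by
        refine mul_le_mul_of_nonneg_left (add_le_add h3 h4) (by positivity)
    _ = 2 ^ p * q ^ n * ((2 ^ a) ^ (p + 1) * A ^ (p + 1) +
          2 ^ b * ((q ^ (p + 2))⁻¹ * B ^ (p + 2))) := by ring
    _ ≤ 2 ^ p * q ^ n * (((2 ^ a) ^ (p + 1) + 2 ^ b) * A ^ (p + 1) +
          ((2 ^ a) ^ (p + 1) + 2 ^ b) * ((q ^ (p + 2))⁻¹ * B ^ (p + 2))) := by
        refine mul_le_mul_of_nonneg_left ?_ (by positivity)
        refine add_le_add ?_ ?_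
        · refine mul_le_mul_of_nonneg_right ?_ (by positivity)
          linarith
        · refine mul_le_mul_of_nonneg_right ?_ (by positivity)
          have : 0 < ((2 : ℝ) ^ a) ^ (p + 1) := by positivity
          linarith
    _ = _ := by ring

end Pool.Agent.Y323.KP
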